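import Pool.Agent.Helper69_Weyl.Transfer

set_option autoImplicit false

/-! Sums of reciprocals of distances to the nearest integer. -/

namespace Pool.Agent.Helper20_Mont

open Finset Pool.Agent.Helper69_Weyl

/-- distance to the nearest integer -/
noncomputable def nd (x : ℝ) : ℝ := |x - round x|

theorem nd_nonneg (x : ℝ) : 0 ≤ nd x := abs_nonneg _

theorem nd_le (x : ℝ) (n : ℤ) : nd x ≤ |x - n| := round_le x n

theorem nd_neg (x : ℝ) : nd (-x) = nd x := by
  apply le_antisymm
  · have h := nd_le (-x) (-round x)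
    refine h.trans (le_of_eq ?_)
    unfold nd
    rw [← abs_neg]
    congr 1
    push_cast
    ring
  · have h := nd_le x (-round (-x))
    refine h.trans (le_of_eq ?_)
    unfold nd
    rw [← abs_neg]
    congr 1
    push_cast
    ring

/-- the kernel -/
noncomputable def Phi (N : ℝ) (x : ℝ) : ℝ := 2 * N / (1 + 2 * N * nd x)

theorem Phi_nonneg (N : ℝ) (hN : 0 ≤ N) (x : ℝ) : 0 ≤ Phi N x := by
  unfold Phi
  have := nd_nonneg x
  positivity

theorem Phi_le (N : ℝ) (hN : 0 ≤ N) (x : ℝ) : Phi N x ≤ 2 * N := by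
  unfold Phi
  have := nd_nonneg x
  apply div_le_self (by positivity)
  have : 0 ≤ 2 * N * nd x := by positivity
  linarith

theorem Phi_le_inv (N : ℝ) (hN : 0 ≤ N) (x y : ℝ) (hy : 0 < y) (h : y ≤ nd x) :
    Phi N x ≤ 1 / y := by
  unfold Phi
  have h0 := nd_nonneg x
  rw [div_le_div_iff₀ (by positivity) hy]
  have : 2 * N * y ≤ 2 * N * nd x := mul_le_mul_of_nonneg_left h (by positivity)
  linarith

theorem Phi_neg (N x : ℝ) : Phi N (-x) = Phi N x := by
  unfold Phi
  rw [nd_neg]

theorem norm_ee_sub_one (θ : ℝ) : 4 * nd θ ≤ ‖ee θ - 1‖ := by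
  set x : ℝ := Int.fract (-θ) with hx
  have hx0 : 0 ≤ x := Int.fract_nonneg _
  have hx1 : x < 1 := Int.fract_lt_one _
  have e1 : ee (-x) = ee θ := by
    have : -x = θ + ((⌊-θ⌋ : ℤ) : ℝ) := by
      rw [hx]
      unfold Int.fract
      ring
    rw [this, ee_add, ee_int, mul_one]
  have h := norm_ee_neg_sub_one x hx0 hx1.le
  rw [e1] at h
  refine le_trans ?_ h
  apply mul_le_mul_of_nonneg_left _ (by norm_num)
  have e2 : x = -θ - ((⌊-θ⌋ : ℤ) : ℝ) := by
    rw [hx]
    rfl
  apply le_min
  · have h1 := nd_le θ (-⌊-θ⌋)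
    refine h1.trans (le_of_eq ?_)
    have : θ - ((-⌊-θ⌋ : ℤ) : ℝ) = -x := by
      rw [e2]; push_cast; ring
    rw [this, abs_neg, abs_of_nonneg hx0]
  · have h1 := nd_le θ (-⌊-θ⌋ - 1)
    refine h1.trans (le_of_eq ?_)
    have : θ - ((-⌊-θ⌋ - 1 : ℤ) : ℝ) = 1 - x := by
      rw [e2]; push_cast; ring
    rw [this, abs_of_nonneg (by linarith)]

/-- geometric sums over integer intervals -/
theorem norm_geom_int (θ : ℝ) (a b : ℤ) (N : ℕ) (hab : b + 1 - a ≤ N) :
    ‖∑ n ∈ Icc a b, ee (θ * n)‖ ≤ Phi N θ := by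
  have hcard : ‖∑ n ∈ Icc a b, ee (θ * n)‖ ≤ N := by
    refine (norm_sum_le _ _).trans ?_
    simp only [norm_ee, sum_const, Int.card_Icc, nsmul_eq_mul, mul_one]
    have : (b + 1 - a).toNat ≤ N := by omega
    exact_mod_cast this
  by_cases hc : 2 * (N : ℝ) * nd θ ≤ 1
  · refine hcard.trans ?_
    unfold Phi
    have h0 := nd_nonneg θ
    rw [le_div_iff₀ (by positivity)]
    have : (0 : ℝ) ≤ N := by positivity
    nlinarith
  · push Not at hc
    have h0 : 0 < nd θ := by
      rcases (nd_nonneg θ).lt_or_eq with h | h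
      · exact h
      · rw [← h] at hc
        norm_num at hc
    have h1 := norm_ee_sub_one θ
    have hne : ee θ ≠ 1 := by
      intro h
      rw [h, sub_self, norm_zero] at h1
      linarith
    have hpos : 0 < ‖ee θ - 1‖ := by linarith
    -- shift to a natural sum
    have e1 : ∑ n ∈ Icc a b, ee (θ * n) =
        ee (θ * (a - 1 : ℤ)) * ∑ m ∈ Icc 1 (b + 1 - a).toNat, ee θ ^ m := by
      rw [Finset.mul_sum]
      symm
      apply Finset.sum_nbij' (fun m : ℕ => a - 1 + (m : ℤ)) (fun n : ℤ => (n - a + 1).toNat)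
      · intro m hm
        rw [Finset.mem_Icc] at hm ⊢
        omega
      · intro n hn
        rw [Finset.mem_Icc] at hn ⊢
        omega
      · intro m hm
        rw [Finset.mem_Icc] at hm
        omega
      · intro n hn
        rw [Finset.mem_Icc] at hn
        omega
      · intro m _
        rw [← ee_natCast_mul, ← ee_add]
        congr 1
        push_cast
        ring
    rw [e1, norm_mul, norm_ee, one_mul]
    refine (norm_geom_le (ee θ) (norm_ee _) hne _).trans ?_
    unfold Phi
    rw [div_le_div_iff₀ hpos (by positivity)]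
    have hN : (0 : ℝ) ≤ N := by positivity
    nlinarith

/-- The sum over a block of `q` consecutive integers. -/
theorem block (t : ℝ) (a : ℤ) (q : ℕ) (hq : 1 ≤ q) (hcop : IsCoprime a (q : ℤ))
    (h : |t - (a : ℝ) / q| ≤ 1 / (q : ℝ) ^ 2) (N : ℝ) (hN : 0 ≤ N) (v₀ : ℕ) :
    ∑ i ∈ range q, Phi N (t * ((v₀ + i : ℕ) : ℝ)) ≤ 10 * N + 2 * q * (1 + Real.log q) := by
  have hq0 : (0 : ℝ) < q := by exact_mod_cast hq
  set c : ℤ := ⌊q * t * v₀⌋ with hc
  set r : ℕ → ℕ := fun i => ((a * i + c) % (q : ℤ)).toNat with hr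
  have hqz : (0 : ℤ) < q := by exact_mod_cast hq
  have hr0 : ∀ i, ((r i : ℕ) : ℤ) = (a * i + c) % (q : ℤ) := by
    intro i
    simp only [hr]
    rw [Int.toNat_of_nonneg (Int.emod_nonneg _ hqz.ne')]
  have hrq : ∀ i, r i < q := by
    intro i
    have := Int.emod_lt_of_pos (a * i + c) hqz
    have h2 := hr0 i
    omega
  have hinj : Set.InjOn r (range q : Set ℕ) := by
    intro i hi j hj hij
    have hi' : i < q := by simpa using hi
    have hj' : j < q := by simpa using hj
    have h1 : (a * i + c) % (q : ℤ) = (a * j + c) % (q : ℤ) := by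
      rw [← hr0, ← hr0, hij]
    have h2 : (q : ℤ) ∣ (a * i + c) - (a * j + c) := Int.ModEq.dvd (Int.ModEq.symm h1)
    have h3 : (q : ℤ) ∣ a * ((i : ℤ) - j) := by
      have : (a * i + c) - (a * j + c) = a * ((i : ℤ) - j) := by ring
      rwa [this] at h2
    have h4 : (q : ℤ) ∣ (i : ℤ) - j := (IsCoprime.symm hcop).dvd_of_dvd_mul_left h3
    have h5 : |((i : ℤ) - (j : ℤ))| < q := by
      rw [abs_lt]
      constructor <;> omega
    have := Int.eq_zero_of_abs_lt_dvd h4 h5
    omega
  -- the function on residues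
  set F : ℕ → ℝ := fun s => (if s ≤ 2 then 2 * N else q / ((s - 2 : ℕ) : ℝ)) +
    (if q - s ≤ 2 then 2 * N else q / ((q - s - 2 : ℕ) : ℝ)) with hF
  have hbound : ∀ i ∈ range q, Phi N (t * ((v₀ + i : ℕ) : ℝ)) ≤ F (r i) := by
    intro i hi
    have hi' : i < q := by simpa using hi
    have hN2 : 0 ≤ 2 * N := by linarith
    have hF1 : 0 ≤ (if q - r i ≤ 2 then 2 * N else (q : ℝ) / ((q - r i - 2 : ℕ) : ℝ)) := by
      split_ifs <;> positivity
    have hF2 : 0 ≤ (if r i ≤ 2 then 2 * N else (q : ℝ) / ((r i - 2 : ℕ) : ℝ)) := by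
      split_ifs <;> positivity
    by_cases h1 : r i ≤ 2
    · refine (Phi_le N hN _).trans ?_
      simp only [hF]
      rw [if_pos h1]
      linarith
    by_cases h2 : q - r i ≤ 2
    · refine (Phi_le N hN _).trans ?_
      simp only [hF]
      rw [if_pos h2]
      linarith
    push Not at h1 h2
    -- write q * t * (v₀ + i) = q * e + r i + s with -1 ≤ s < 2
    obtain ⟨e, he⟩ : ∃ e : ℤ, a * i + c = q * e + (r i : ℤ) := by
      refine ⟨(a * i + c) / q, ?_⟩
      rw [hr0]
      have := Int.mul_ediv_add_emod (a * i + c) (q : ℤ)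
      linarith
    set s : ℝ := q * (t * ((v₀ + i : ℕ) : ℝ)) - q * e - r i with hs
    have hs_eq : s = (q * t * v₀ - c) + (q * t - a) * i := by
      have he' : (a : ℝ) * i + c = q * e + (r i : ℝ) := by exact_mod_cast he
      rw [hs]
      push_cast
      linarith
    have hfr0 : 0 ≤ q * t * v₀ - c := by
      have := Int.floor_le (q * t * v₀)
      rw [hc]; linarith
    have hfr1 : q * t * v₀ - c < 1 := by
      have := Int.lt_floor_add_one (q * t * v₀)
      rw [hc]; linarith
    have herr : |(q * t - a) * i| ≤ 1 := by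
      have e1 : (q : ℝ) * t - a = q * (t - a / q) := by field_simp
      rw [e1, abs_mul, abs_mul, abs_of_pos hq0, abs_of_nonneg (show (0 : ℝ) ≤ (i : ℝ) from Nat.cast_nonneg i)]
      have hi2 : (i : ℝ) ≤ q := by exact_mod_cast hi'.le
      calc (q : ℝ) * |t - a / q| * i ≤ q * (1 / (q : ℝ) ^ 2) * q := by
            apply mul_le_mul _ hi2 (by positivity) (by positivity)
            exact mul_le_mul_of_nonneg_left h hq0.le
        _ = 1 := by field_simp
    have hs1 : -1 ≤ s := by
      have := (abs_le.1 herr).1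
      rw [hs_eq]; linarith
    have hs2 : s < 2 := by
      have := (abs_le.1 herr).2
      rw [hs_eq]; linarith
    set θ : ℝ := t * ((v₀ + i : ℕ) : ℝ) with hθ
    have hθs : θ = e + (r i + s) / q := by
      have : (q : ℝ) * θ = q * e + r i + s := by rw [hs]; ring
      field_simp
      linarith
    -- lower bound of nd
    have hrq' : (r i : ℝ) < q := by exact_mod_cast hrq i
    have hcast1 : ((r i - 2 : ℕ) : ℝ) = (r i : ℝ) - 2 := by
      rw [Nat.cast_sub (by omega)]; norm_num
    have hcast2 : ((q - r i - 2 : ℕ) : ℝ) = (q : ℝ) - r i - 2 := by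
      rw [Nat.cast_sub (by omega), Nat.cast_sub (by omega)]; norm_num
    have hr3 : (3 : ℝ) ≤ r i := by exact_mod_cast h1
    have hq3 : (3 : ℝ) ≤ (q : ℝ) - r i := by
      have h3 : 3 + r i ≤ q := by omega
      have : ((3 + r i : ℕ) : ℝ) ≤ q := by exact_mod_cast h3
      push_cast at this
      linarith
    have hlow : min ((r i : ℝ) - 2) ((q : ℝ) - r i - 2) / q ≤ nd θ := by
      unfold nd
      set m : ℤ := round θ with hm
      rcases le_or_gt m e with hme | hme
      · have hme' : (m : ℝ) ≤ e := by exact_mod_cast hme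
        have h3 : ((r i : ℝ) - 2) / q ≤ θ - m := by
          have : ((r i : ℝ) - 2) / q ≤ (r i + s) / q := by
            apply div_le_div_of_nonneg_right _ hq0.le
            linarith
          rw [hθs]; linarith
        refine le_trans ?_ (le_abs_self _)
        refine le_trans ?_ h3
        apply div_le_div_of_nonneg_right (min_le_left _ _) hq0.le
      · have hme' : (e : ℝ) + 1 ≤ m := by exact_mod_cast hme
        have h3 : ((q : ℝ) - r i - 2) / q ≤ m - θ := by
          have : ((q : ℝ) - r i - 2) / q ≤ 1 - (r i + s) / q := by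
            rw [div_le_iff₀ hq0]
            have : (1 - (r i + s) / q) * q = q - (r i + s) := by field_simp
            rw [this]; linarith
          rw [hθs]; linarith
        rw [abs_sub_comm]
        refine le_trans ?_ (le_abs_self _)
        refine le_trans ?_ h3
        apply div_le_div_of_nonneg_right (min_le_right _ _) hq0.le
    have hmin : 0 < min ((r i : ℝ) - 2) ((q : ℝ) - r i - 2) := lt_min (by linarith) (by linarith)
    have h5 := Phi_le_inv N hN θ _ (div_pos hmin hq0) hlow
    refine h5.trans ?_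
    simp only [hF]
    rw [if_neg (by omega), if_neg (by omega), hcast1, hcast2, one_div_div]
    rcases le_total ((r i : ℝ) - 2) ((q : ℝ) - r i - 2) with h6 | h6
    · rw [min_eq_left h6]
      have : 0 ≤ (q : ℝ) / ((q : ℝ) - r i - 2) := div_nonneg hq0.le (by linarith)
      linarith
    · rw [min_eq_right h6]
      have : 0 ≤ (q : ℝ) / ((r i : ℝ) - 2) := div_nonneg hq0.le (by linarith)
      linarith
  have hF0 : ∀ s, 0 ≤ F s := by
    intro s
    simp only [hF]
    apply add_nonneg <;> split_ifs <;> positivity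
  have hharm : ∀ n : ℕ, ∑ j ∈ range n, ((j + 1 : ℕ) : ℝ)⁻¹ ≤ 1 + Real.log n := by
    intro n
    have hh : ((harmonic n : ℚ) : ℝ) = ∑ j ∈ range n, ((j + 1 : ℕ) : ℝ)⁻¹ := by
      unfold harmonic
      push_cast
      rfl
    rw [← hh]
    exact harmonic_le_one_add_log n
  calc ∑ i ∈ range q, Phi N (t * ((v₀ + i : ℕ) : ℝ)) ≤ ∑ i ∈ range q, F (r i) :=
        Finset.sum_le_sum hbound
    _ = ∑ s ∈ (range q).image r, F s := (Finset.sum_image hinj).symm
    _ ≤ ∑ s ∈ range q, F s := by
        apply Finset.sum_le_sum_of_subset_of_nonneg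
        · intro s hs
          rw [Finset.mem_image] at hs
          obtain ⟨i, _, rfl⟩ := hs
          exact Finset.mem_range.2 (hrq i)
        · intro _ _ _
          exact hF0 _
    _ = ∑ s ∈ range q, (if s ≤ 2 then 2 * N else q / ((s - 2 : ℕ) : ℝ)) +
          ∑ s ∈ range q, (if q - s ≤ 2 then 2 * N else q / ((q - s - 2 : ℕ) : ℝ)) := by
        rw [← Finset.sum_add_distrib]
    _ ≤ (6 * N + q * (1 + Real.log q)) + (4 * N + q * (1 + Real.log q)) := by
        have key1 : ∀ n : ℕ, ∑ s ∈ range n, (if s ≤ 2 then 2 * N else (q : ℝ) / ((s - 2 : ℕ) : ℝ)) ≤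
            6 * N + q * ∑ j ∈ range n, ((j + 1 : ℕ) : ℝ)⁻¹ := by
          intro n
          rcases Nat.lt_or_ge n 3 with h3 | h3
          · have hb : ∀ s ∈ range n, (if s ≤ 2 then 2 * N else (q : ℝ) / ((s - 2 : ℕ) : ℝ)) ≤ 2 * N := by
              intro s hs
              have := Finset.mem_range.1 hs
              rw [if_pos (by omega)]
            have h4 := Finset.sum_le_sum hb
            rw [Finset.sum_const, Finset.card_range, nsmul_eq_mul] at h4
            have h5 : (n : ℝ) ≤ 3 := by exact_mod_cast h3.le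
            have h6 : 0 ≤ (q : ℝ) * ∑ j ∈ range n, ((j + 1 : ℕ) : ℝ)⁻¹ := by positivity
            nlinarith
          · obtain ⟨m, rfl⟩ := Nat.exists_eq_add_of_le h3
            rw [Finset.sum_range_add]
            have h4 : ∑ s ∈ range 3, (if s ≤ 2 then 2 * N else (q : ℝ) / ((s - 2 : ℕ) : ℝ)) = 6 * N := by
              simp [Finset.sum_range_succ]
              ring
            rw [h4]
            have h5 : ∀ s ∈ range m, (if 3 + s ≤ 2 then 2 * N else (q : ℝ) / ((3 + s - 2 : ℕ) : ℝ)) =
                q * ((s + 1 : ℕ) : ℝ)⁻¹ := by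
              intro s _
              rw [if_neg (by omega), div_eq_mul_inv]
              congr 3
              omega
            rw [Finset.sum_congr rfl h5, ← Finset.mul_sum]
            have h6 : ∑ s ∈ range m, ((s + 1 : ℕ) : ℝ)⁻¹ ≤ ∑ s ∈ range (3 + m), ((s + 1 : ℕ) : ℝ)⁻¹ := by
              apply Finset.sum_le_sum_of_subset_of_nonneg
              · intro x hx
                have := Finset.mem_range.1 hx
                exact Finset.mem_range.2 (by omega)
              · intro _ _ _
                positivity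
            have := mul_le_mul_of_nonneg_left h6 hq0.le
            linarith
        have key2 : ∑ s ∈ range q, (if q - s ≤ 2 then 2 * N else (q : ℝ) / ((q - s - 2 : ℕ) : ℝ)) ≤
            4 * N + q * ∑ j ∈ range q, ((j + 1 : ℕ) : ℝ)⁻¹ := by
          rw [← Finset.sum_range_reflect]
          have h5 : ∀ s ∈ range q, (if q - (q - 1 - s) ≤ 2 then 2 * N else
              (q : ℝ) / ((q - (q - 1 - s) - 2 : ℕ) : ℝ)) =
              if s ≤ 1 then 2 * N else (q : ℝ) / ((s - 1 : ℕ) : ℝ) := by
            intro s hs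
            have := Finset.mem_range.1 hs
            have e1 : q - (q - 1 - s) = s + 1 := by omega
            rw [e1]
            by_cases h6 : s ≤ 1
            · rw [if_pos (by omega), if_pos h6]
            · rw [if_neg (by omega), if_neg h6]
              congr 2
              
          rw [Finset.sum_congr rfl h5]
          rcases Nat.lt_or_ge q 2 with h3 | h3
          · have hb : ∀ s ∈ range q, (if s ≤ 1 then 2 * N else (q : ℝ) / ((s - 1 : ℕ) : ℝ)) ≤ 2 * N := by
              intro s hs
              have := Finset.mem_range.1 hs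
              rw [if_pos (by omega)]
            have h4 := Finset.sum_le_sum hb
            rw [Finset.sum_const, Finset.card_range, nsmul_eq_mul] at h4
            have h5 : (q : ℝ) ≤ 2 := by exact_mod_cast h3.le
            have h6 : 0 ≤ (q : ℝ) * ∑ j ∈ range q, ((j + 1 : ℕ) : ℝ)⁻¹ := by positivity
            nlinarith
          · obtain ⟨m, hm⟩ := Nat.exists_eq_add_of_le h3
            have e0 : ∑ s ∈ range q, (if s ≤ 1 then 2 * N else (q : ℝ) / ((s - 1 : ℕ) : ℝ)) =
                ∑ s ∈ range (2 + m), (if s ≤ 1 then 2 * N else (q : ℝ) / ((s - 1 : ℕ) : ℝ)) := by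
              rw [← hm]
            rw [e0, Finset.sum_range_add]
            have h4 : ∑ s ∈ range 2, (if s ≤ 1 then 2 * N else (q : ℝ) / ((s - 1 : ℕ) : ℝ)) = 4 * N := by
              simp [Finset.sum_range_succ]
              ring
            rw [h4]
            have h5 : ∀ s ∈ range m, (if 2 + s ≤ 1 then 2 * N else (q : ℝ) / ((2 + s - 1 : ℕ) : ℝ)) =
                q * ((s + 1 : ℕ) : ℝ)⁻¹ := by
              intro s _
              rw [if_neg (by omega), div_eq_mul_inv]
              congr 3
              omega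
            rw [Finset.sum_congr rfl h5, ← Finset.mul_sum]
            have h6 : ∑ s ∈ range m, ((s + 1 : ℕ) : ℝ)⁻¹ ≤ ∑ s ∈ range q, ((s + 1 : ℕ) : ℝ)⁻¹ := by
              apply Finset.sum_le_sum_of_subset_of_nonneg
              · intro x hx
                have := Finset.mem_range.1 hx
                exact Finset.mem_range.2 (by omega)
              · intro _ _ _
                positivity
            have := mul_le_mul_of_nonneg_left h6 hq0.le
            linarith
        have h7 := mul_le_mul_of_nonneg_left (hharm q) hq0.le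
        have h8 := key1 q
        linarith
    _ = 10 * N + 2 * q * (1 + Real.log q) := by ring

/-- The sum over `v < q K`. -/
theorem sum_blocks (t : ℝ) (a : ℤ) (q : ℕ) (hq : 1 ≤ q) (hcop : IsCoprime a (q : ℤ))
    (h : |t - (a : ℝ) / q| ≤ 1 / (q : ℝ) ^ 2) (N : ℝ) (hN : 0 ≤ N) (K : ℕ) :
    ∑ v ∈ range (q * K), Phi N (t * (v : ℝ)) ≤ K * (10 * N + 2 * q * (1 + Real.log q)) := by
  induction K with
  | zero => simp
  | succ K ih =>
    rw [Nat.mul_succ, Finset.sum_range_add]
    have := block t a q hq hcop h N hN (q * K)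
    push_cast at this ih ⊢
    linarith

/-- The sum `∑_{1 ≤ u ≤ U} Φ(6 t u)`. -/
theorem sum_six (t : ℝ) (a : ℤ) (q : ℕ) (hq : 1 ≤ q) (hcop : IsCoprime a (q : ℤ))
    (h : |t - (a : ℝ) / q| ≤ 1 / (q : ℝ) ^ 2) (N : ℝ) (hN : 0 ≤ N) (U : ℕ) :
    ∑ u ∈ Icc 1 U, Phi N (6 * t * (u : ℝ)) ≤
      (6 * U / q + 2) * (10 * N + 2 * q * (1 + Real.log q)) := by
  have hq0 : (0 : ℝ) < q := by exact_mod_cast hq
  set K : ℕ := 6 * U / q + 1 with hK
  have hK1 : 6 * U < q * K := by
    have h1 := Nat.div_add_mod (6 * U) q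
    have h2 := Nat.mod_lt (6 * U) (by omega : 0 < q)
    rw [hK, Nat.mul_succ]
    omega
  have hK2 : (K : ℝ) ≤ 6 * U / q + 2 := by
    rw [hK]
    push_cast
    have h1 : ((6 * U / q : ℕ) : ℝ) ≤ ((6 * U : ℕ) : ℝ) / q := Nat.cast_div_le
    push_cast at h1
    linarith
  have hB : 0 ≤ 10 * N + 2 * q * (1 + Real.log q) := by
    have : 0 ≤ Real.log q := Real.log_nonneg (by exact_mod_cast hq)
    positivity
  calc ∑ u ∈ Icc 1 U, Phi N (6 * t * (u : ℝ)) = ∑ v ∈ (Icc 1 U).image (fun u : ℕ => (6 * u : ℕ)),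
        Phi N (t * ((v : ℕ) : ℝ)) := by
        rw [Finset.sum_image (by
          intro x _ y _ hxy
          have : 6 * x = 6 * y := hxy
          omega)]
        apply Finset.sum_congr rfl
        intro u _
        congr 1
        push_cast
        ring
    _ ≤ ∑ v ∈ range (q * K), Phi N (t * (v : ℝ)) := by
        apply Finset.sum_le_sum_of_subset_of_nonneg
        · intro v hv
          rw [Finset.mem_image] at hv
          obtain ⟨u, hu, rfl⟩ := hv
          have := (Finset.mem_Icc.1 hu).2
          exact Finset.mem_range.2 (by omega)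
        · intro _ _ _
          exact Phi_nonneg N hN _
    _ ≤ K * (10 * N + 2 * q * (1 + Real.log q)) := sum_blocks t a q hq hcop h N hN K
    _ ≤ _ := mul_le_mul_of_nonneg_right hK2 hB

end Pool.Agent.Helper20_Mont
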