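import Mathlib

set_option autoImplicit false

/-! A covering criterion for the Hausdorff dimension of a limsup set of dyadic cells. -/

namespace Pool.Agent.Helper20_Mont

open Finset MeasureTheory Filter Topology
open scoped ENNReal NNReal

/-- If `E ∩ [m, m+1)` is contained in the limsup of the cells of the families `b i`, and
`|b i| ≤ C 2^{i e'}` for some `C` for each `e' > e`, then `dimH E ≤ e`. -/
theorem dim_cover (E : Set ℝ) (e : ℝ)
    (h : ∀ e' : ℝ, e < e' → ∃ (C : ℝ) (b : ℕ → Finset ℕ), 0 ≤ C ∧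
      (∀ i, ((b i).card : ℝ) ≤ C * ((2 : ℝ) ^ i) ^ e') ∧
      ∀ (m : ℤ) (x : ℝ), x ∈ E → x ∈ Set.Ico (m : ℝ) (m + 1) → ∀ n : ℕ, ∃ i, n ≤ i ∧ ∃ r ∈ b i,
        |x - (m + (r : ℝ) / (4 * 2 ^ i : ℝ))| ≤ 1 / (4 * 2 ^ i : ℝ)) :
    dimH E ≤ ENNReal.ofReal e := by
  classical
  apply le_of_forall_gt_imp_ge_of_dense
  intro D hD
  rcases eq_or_ne D ∞ with hDt | hDt
  · rw [hDt]; exact le_top
  lift D to ℝ≥0 using hDt
  have hD0 : (0 : ℝ) < D := by
    have h1 : (0 : ℝ≥0∞) < D := lt_of_le_of_lt zero_le hD
    exact_mod_cast h1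
  have hDd : e < D := by
    rcases le_or_gt e 0 with h | h
    · linarith
    · rw [ENNReal.ofReal_lt_iff_lt_toReal h.le (by simp)] at hD
      simpa using hD
  set e' : ℝ := (e + D) / 2 with he'
  obtain ⟨C, b, hC0, hcard, hcov⟩ := h e' (by rw [he']; linarith)
  set Rn : ℕ → ℝ := fun i => 4 * 2 ^ i with hRn
  have hRpos : ∀ i, 0 < Rn i := by
    intro i
    simp only [hRn]
    positivity
  have hmain : ∀ m : ℤ, dimH (E ∩ Set.Ico (m : ℝ) (m + 1)) ≤ D := by
    intro m
    apply dimH_le_of_hausdorffMeasure_ne_top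
    set T : ∀ _n : ℕ, (ℕ × ℕ) → Set ℝ := fun n q =>
      if n ≤ q.1 ∧ q.2 ∈ b q.1 then
        Metric.closedBall ((m : ℝ) + (q.2 : ℝ) / Rn q.1) (1 / Rn q.1) else ∅ with hT
    have hdiam : ∀ n q, Metric.ediam (T n q) ≤
        if n ≤ q.1 ∧ q.2 ∈ b q.1 then ENNReal.ofReal (2 / Rn q.1) else 0 := by
      intro n q
      simp only [hT]
      split_ifs with h
      · rw [Real.closedBall_eq_Icc, Real.ediam_Icc]
        apply le_of_eq
        congr 1
        ring
      · simp
    have hmeas := Measure.hausdorffMeasure_le_liminf_tsum (X := ℝ) (β := ℕ) (ι := fun _ => ℕ × ℕ)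
      (D : ℝ) (E ∩ Set.Ico (m : ℝ) (m + 1)) (l := atTop)
      (fun n => ENNReal.ofReal (2 / Rn n)) (by
        rw [← ENNReal.ofReal_zero]
        apply ENNReal.tendsto_ofReal
        have h1 : ∀ n, 2 / Rn n ≤ (1 / 2 : ℝ) ^ n := by
          intro n
          simp only [hRn]
          rw [one_div, inv_pow, ← one_div, div_le_div_iff₀ (by positivity) (by positivity), one_mul]
          have h3 : (0 : ℝ) < 2 ^ n := by positivity
          linarith
        apply squeeze_zero (fun n => by have := hRpos n; positivity) h1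
        exact tendsto_pow_atTop_nhds_zero_of_lt_one (by norm_num) (by norm_num)) T (by
        apply Filter.Eventually.of_forall
        intro n q
        refine (hdiam n q).trans ?_
        split_ifs with h
        · apply ENNReal.ofReal_le_ofReal
          apply div_le_div_of_nonneg_left (by norm_num) (hRpos n)
          simp only [hRn]
          have : (2 : ℝ) ^ n ≤ 2 ^ q.1 := pow_le_pow_right₀ (by norm_num) h.1
          linarith
        · exact zero_le) (by
        apply Filter.Eventually.of_forall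
        intro n x hx
        obtain ⟨i, hi, r, hr, hclose⟩ := hcov m x hx.1 hx.2 n
        rw [Set.mem_iUnion]
        refine ⟨(i, r), ?_⟩
        simp only [hT]
        rw [if_pos ⟨hi, hr⟩, Metric.mem_closedBall, Real.dist_eq]
        exact hclose)
    set ρ : ℝ := (2 : ℝ) ^ (e' - D) with hρdef
    have hcount : ∀ i, (((b i).card : ℝ)) * (2 / Rn i) ^ (D : ℝ) ≤ C * ρ ^ i := by
      intro i
      set N : ℝ := (2 : ℝ) ^ i with hN
      have hN0 : (0 : ℝ) < N := by rw [hN]; positivity
      have h3 : (2 / Rn i) ^ (D : ℝ) ≤ N⁻¹ ^ (D : ℝ) := by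
        apply Real.rpow_le_rpow (by have := hRpos i; positivity) _ (NNReal.coe_nonneg D)
        simp only [hRn]
        rw [← hN, inv_eq_one_div, div_le_div_iff₀ (by positivity) (by positivity)]
        linarith
      have h4 : N⁻¹ ^ (D : ℝ) = N ^ (-(D : ℝ)) := by
        rw [Real.inv_rpow hN0.le, Real.rpow_neg hN0.le]
      calc (((b i).card : ℝ)) * (2 / Rn i) ^ (D : ℝ)
          ≤ (C * N ^ e') * N⁻¹ ^ (D : ℝ) :=
            mul_le_mul (hcard i) h3 (by have := hRpos i; positivity) (by positivity)
        _ = C * N ^ (e' - D) := by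
            rw [h4, mul_assoc, ← Real.rpow_add hN0]
            congr 1
        _ = C * ρ ^ i := by
            congr 1
            rw [hN, hρdef, ← Real.rpow_natCast, ← Real.rpow_natCast, ← Real.rpow_mul (by norm_num),
              ← Real.rpow_mul (by norm_num), mul_comm]
    have hρ : ρ < 1 := Real.rpow_lt_one_of_one_lt_of_neg (by norm_num) (by rw [he']; linarith)
    have hρ0 : 0 ≤ ρ := by positivity
    have hsum : Summable (fun i : ℕ => C * ρ ^ i) :=
      (summable_geometric_of_lt_one hρ0 hρ).mul_left _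
    have hbound : ∀ n : ℕ, ∑' q : ℕ × ℕ, Metric.ediam (T n q) ^ (D : ℝ) ≤
        ∑' i : ℕ, ENNReal.ofReal (C * ρ ^ i) := by
      intro n
      rw [show (∑' q : ℕ × ℕ, Metric.ediam (T n q) ^ (D : ℝ)) =
        ∑' (i : ℕ) (r : ℕ), Metric.ediam (T n (i, r)) ^ (D : ℝ) from
        ENNReal.tsum_prod (f := fun i r => Metric.ediam (T n (i, r)) ^ (D : ℝ))]
      apply ENNReal.tsum_le_tsum
      intro i
      calc ∑' r : ℕ, Metric.ediam (T n (i, r)) ^ (D : ℝ)
          ≤ ∑' r : ℕ, (if r ∈ b i then ENNReal.ofReal ((2 / Rn i) ^ (D : ℝ)) else 0) := by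
            apply ENNReal.tsum_le_tsum
            intro r
            refine (ENNReal.rpow_le_rpow (hdiam n (i, r)) (NNReal.coe_nonneg D)).trans ?_
            by_cases h1 : r ∈ b i
            · by_cases h2 : n ≤ i
              · simp only [h1, h2, and_self, if_true]
                rw [ENNReal.ofReal_rpow_of_nonneg (by have := hRpos i; positivity)
                  (NNReal.coe_nonneg D)]
              · simp only [h2, false_and, if_false]
                rw [ENNReal.zero_rpow_of_pos hD0]
                exact zero_le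
            · simp only [h1, and_false, if_false]
              rw [ENNReal.zero_rpow_of_pos hD0]
        _ = ∑ r ∈ b i, ENNReal.ofReal ((2 / Rn i) ^ (D : ℝ)) := by
            rw [tsum_eq_sum (s := b i)]
            · apply Finset.sum_congr rfl
              intro r hr
              rw [if_pos hr]
            · intro r hr
              rw [if_neg hr]
        _ = ENNReal.ofReal (((b i).card : ℝ) * (2 / Rn i) ^ (D : ℝ)) := by
            rw [Finset.sum_const, nsmul_eq_mul, ENNReal.ofReal_mul (by positivity),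
              ENNReal.ofReal_natCast]
        _ ≤ ENNReal.ofReal (C * ρ ^ i) := ENNReal.ofReal_le_ofReal (hcount i)
    have hfin : ∑' i : ℕ, ENNReal.ofReal (C * ρ ^ i) ≠ ∞ := by
      rw [← ENNReal.ofReal_tsum_of_nonneg (fun i => by positivity) hsum]
      exact ENNReal.ofReal_ne_top
    refine ne_top_of_le_ne_top hfin (hmeas.trans ?_)
    refine (liminf_le_liminf (v := fun _ => ∑' i : ℕ, ENNReal.ofReal (C * ρ ^ i))
      (Filter.Eventually.of_forall hbound)).trans ?_
    simp
  have hU : E = ⋃ m : ℤ, (E ∩ Set.Ico (m : ℝ) (m + 1)) := by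
    rw [← Set.inter_iUnion]
    have : (⋃ m : ℤ, Set.Ico (m : ℝ) (m + 1)) = Set.univ := iUnion_Ico_intCast ℝ
    rw [this, Set.inter_univ]
  rw [hU, dimH_iUnion]
  exact iSup_le hmain

end Pool.Agent.Helper20_Mont
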