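import Pool.Agent.Helper20_Mont.Maximal
import Pool.Agent.Helper20_Mont.Cover

set_option autoImplicit false

/-! Exceptional sets in `ξ` for fixed `t`. -/

namespace Pool.Agent.Helper20_Mont

open Finset Pool.Agent.Helper69_Weyl MeasureTheory

/-- moment hypothesis with exponent `p` and saving `q^σ` -/
def Mom (k p : ℕ) (σ : ℝ) : Prop :=
  ∀ δ : ℝ, 0 < δ → ∃ C : ℝ, 0 ≤ C ∧ ∀ N : ℕ, 1 ≤ N → ∀ (t : ℝ) (a : ℤ) (q : ℕ),
    1 ≤ q → q ≤ N → IsCoprime a (q : ℤ) → |t - (a : ℝ) / q| ≤ 1 / (q : ℝ) ^ 2 →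
    ∑ j ∈ range (4 * N), ‖W k N t ((j : ℝ) / ((4 * N : ℕ) : ℝ))‖ ^ p ≤
      C * (N : ℝ) ^ (p + δ) / (q : ℝ) ^ σ

theorem mom_three : Mom 3 4 1 := by
  intro δ hδ
  obtain ⟨C, hC0, hC⟩ := fourth δ hδ
  refine ⟨C, hC0, ?_⟩
  intro N hN t a q hq hqN hcop happ
  have := hC N hN t a q hq hqN hcop happ
  rw [Real.rpow_one]
  exact_mod_cast this

theorem mom_two (k : ℕ) : Mom k 2 0 := by
  intro δ hδ
  refine ⟨4, by norm_num, ?_⟩
  intro N hN t a q hq hqN hcop happ
  rw [second k N t (4 * N) (by omega) (by omega), Real.rpow_zero, div_one]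
  have hN0 : (0 : ℝ) < N := by exact_mod_cast hN
  have hN1 : (1 : ℝ) ≤ N := by exact_mod_cast hN
  have hNδ : 1 ≤ (N : ℝ) ^ δ := Real.one_le_rpow hN1 hδ.le
  have e : (N : ℝ) ^ (((2 : ℕ) : ℝ) + δ) = (N : ℝ) ^ 2 * (N : ℝ) ^ δ := by
    rw [Real.rpow_add hN0, Real.rpow_natCast]
  rw [e]
  push_cast
  nlinarith [sq_nonneg (N : ℝ), mul_le_mul_of_nonneg_left hNδ (sq_nonneg (N : ℝ))]

theorem LL_le (p : ℕ) (δ : ℝ) (hδ : 0 < δ) : ∃ C : ℝ, 0 ≤ C ∧ ∀ N : ℕ, 1 ≤ N →
    (LL N) ^ p ≤ C * (N : ℝ) ^ δ := by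
  set η : ℝ := δ / (p + 1) with hη
  have hp0 : (0 : ℝ) < (p : ℝ) + 1 := by positivity
  have hη0 : 0 < η := by positivity
  refine ⟨(5 + 2 * (4 ^ η / η)) ^ p, by positivity, ?_⟩
  intro N hN
  have hN0 : (0 : ℝ) < N := by exact_mod_cast hN
  have hN1 : (1 : ℝ) ≤ N := by exact_mod_cast hN
  have h1 : LL N ≤ (5 + 2 * (4 ^ η / η)) * (N : ℝ) ^ η := by
    unfold LL
    have h2 := Real.log_le_rpow_div (x := 4 * N) (by positivity) hη0
    rw [Real.mul_rpow (by norm_num) hN0.le] at h2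
    have h3 : 1 ≤ (N : ℝ) ^ η := Real.one_le_rpow hN1 hη0.le
    have h4 : (4 : ℝ) ^ η * (N : ℝ) ^ η / η = 4 ^ η / η * (N : ℝ) ^ η := by ring
    rw [h4] at h2
    nlinarith
  have hLL : 0 ≤ LL N := by
    unfold LL
    have : 0 ≤ Real.log (4 * N) := Real.log_nonneg (by linarith)
    linarith
  calc (LL N) ^ p ≤ ((5 + 2 * (4 ^ η / η)) * (N : ℝ) ^ η) ^ p := pow_le_pow_left₀ hLL h1 p
    _ = (5 + 2 * (4 ^ η / η)) ^ p * (N : ℝ) ^ (η * p) := by
        rw [mul_pow, ← Real.rpow_natCast ((N : ℝ) ^ η), ← Real.rpow_mul hN0.le]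
    _ ≤ (5 + 2 * (4 ^ η / η)) ^ p * (N : ℝ) ^ δ := by
        apply mul_le_mul_of_nonneg_left _ (by positivity)
        apply Real.rpow_le_rpow_of_exponent_le hN1
        rw [hη, div_mul_eq_mul_div, div_le_iff₀ hp0]
        nlinarith

/-- bound for the number of bad grid points under the moment hypothesis -/
theorem card_badX_le (k p : ℕ) (σ : ℝ) (hmom : Mom k p σ) (δ : ℝ) (hδ : 0 < δ) :
    ∃ C : ℝ, 0 ≤ C ∧ ∀ N : ℕ, 1 ≤ N → ∀ (t : ℝ) (a : ℤ) (q : ℕ),
    1 ≤ q → q ≤ N → IsCoprime a (q : ℤ) → |t - (a : ℝ) / q| ≤ 1 / (q : ℝ) ^ 2 →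
    ∀ B : ℝ, 0 ≤ B → ((badX k N t B).card : ℝ) * B ^ p ≤ C * (N : ℝ) ^ (p + δ) / (q : ℝ) ^ σ := by
  obtain ⟨C1, hC10, hC1⟩ := hmom (δ / 2) (by positivity)
  obtain ⟨C2, hC20, hC2⟩ := LL_le p (δ / 2) (by positivity)
  refine ⟨C2 * C1, by positivity, ?_⟩
  intro N hN t a q hq hqN hcop happ B hB
  have hN0 : (0 : ℝ) < N := by exact_mod_cast hN
  have hq0 : (0 : ℝ) < q := by exact_mod_cast hq
  refine (card_badX k N p hN t B hB).trans ?_
  calc (LL N) ^ p * ∑ j ∈ range (4 * N), ‖W k N t ((j : ℝ) / ((4 * N : ℕ) : ℝ))‖ ^ p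
      ≤ (C2 * (N : ℝ) ^ (δ / 2)) * (C1 * (N : ℝ) ^ (p + δ / 2) / (q : ℝ) ^ σ) := by
        apply mul_le_mul (hC2 N hN) (hC1 N hN t a q hq hqN hcop happ) _ (by positivity)
        exact Finset.sum_nonneg (fun _ _ => by positivity)
    _ = C2 * C1 * ((N : ℝ) ^ (δ / 2) * (N : ℝ) ^ (p + δ / 2)) / (q : ℝ) ^ σ := by ring
    _ = C2 * C1 * (N : ℝ) ^ (p + δ) / (q : ℝ) ^ σ := by
        rw [← Real.rpow_add hN0]
        congr 3
        ring

/-- The set of `ξ` at which the bound `≪ N^{1+ε} q^{-1/k}` fails. -/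
def ExcX (k : ℕ) (ε t : ℝ) : Set ℝ :=
  {ξ | ¬ ∃ C : ℝ, ∀ N : ℕ, 1 ≤ N → ∀ a q : ℕ, 1 ≤ a → a < q → q ≤ N → Nat.Coprime a q →
    |t - (a : ℝ) / (q : ℝ)| ≤ 1 / (q : ℝ) ^ 2 →
    ‖W k N t ξ‖ ≤ C * (N : ℝ) ^ (1 + ε) * (1 / (q : ℝ)) ^ (1 / (k : ℝ))}

theorem norm_W_le' (k N : ℕ) (t ξ : ℝ) : ‖W k N t ξ‖ ≤ N := by
  unfold W
  refine (norm_sum_le _ _).trans ?_
  simp only [norm_ee]
  simp

/-- admissible scales -/
def Sc (t : ℝ) (i l : ℕ) : Prop :=
  ∃ a q : ℕ, 1 ≤ a ∧ a < q ∧ 2 ^ l ≤ q ∧ q < 2 ^ (l + 1) ∧ q ≤ 2 ^ i ∧ Nat.Coprime a q ∧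
    |t - (a : ℝ) / (q : ℝ)| ≤ 1 / (q : ℝ) ^ 2

open Classical in
/-- the union of the bad sets at level `i` -/
noncomputable def badU (k : ℕ) (t : ℝ) (Bf : ℕ → ℕ → ℝ) (i : ℕ) : Finset ℕ :=
  (range (i + 1)).biUnion (fun l => if Sc t i l then badX k (2 ^ i) t (Bf i l) else ∅)

theorem dim_xi (k : ℕ) (hk : 1 ≤ k) (p : ℕ) (hp : 1 ≤ p) (σ : ℝ) (hσ0 : 0 ≤ σ) (hσ : σ ≤ p / k)
    (hmom : Mom k p σ) (t ε : ℝ) (hε : 0 ≤ ε) :
    dimH (ExcX k ε t) ≤ ENNReal.ofReal (p / k - σ - p * ε) := by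
  classical
  have hk0 : (0 : ℝ) < k := by exact_mod_cast hk
  have hp0 : (0 : ℝ) < p := by exact_mod_cast hp
  apply dim_cover
  intro e' he'
  set g : ℝ := (e' - (p / k - σ - p * ε)) / 3 with hg
  have hg0 : 0 < g := by rw [hg]; linarith
  set η : ℝ := g / p with hη
  have hη0 : 0 < η := by positivity
  obtain ⟨C, hC0, hC⟩ := card_badX_le k p σ hmom g hg0
  set Bf : ℕ → ℕ → ℝ := fun i l => ((2 : ℝ) ^ i) ^ (1 + ε - η) * ((2 : ℝ) ^ l) ^ (-(1 / (k : ℝ))) with hBf
  have hBf0 : ∀ i l, 0 < Bf i l := by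
    intro i l
    simp only [hBf]
    positivity
  refine ⟨(1 + 1 / (g * Real.log 2)) * C, badU k t Bf, by
    have := Real.log_pos (by norm_num : (1 : ℝ) < 2)
    positivity, ?_, ?_⟩
  · -- the count
    intro i
    set N : ℝ := (2 : ℝ) ^ i with hN
    have hN0 : 0 < N := by positivity
    have hN1 : 1 ≤ N := one_le_pow₀ (by norm_num)
    have hNc : ((2 ^ i : ℕ) : ℝ) = N := by rw [hN]; push_cast; rfl
    have hone : ∀ l ∈ range (i + 1), (((if Sc t i l then badX k (2 ^ i) t (Bf i l) else ∅) :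
        Finset ℕ).card : ℝ) ≤ C * N ^ (e' - g) := by
      intro l hl
      have hli : l ≤ i := by have := Finset.mem_range.1 hl; omega
      split_ifs with hS
      · obtain ⟨a, q, ha, haq, hlq, hq2, hqi, hcop, happ⟩ := hS
        have hq1 : 1 ≤ q := by omega
        have h1 := hC (2 ^ i) Nat.one_le_two_pow t a q hq1 hqi (by
          rw [Nat.isCoprime_iff_coprime]; exact hcop) (by rw [Int.cast_natCast]; exact happ) (Bf i l) (hBf0 i l).le
        rw [hNc] at h1
        have hBp : (Bf i l) ^ p = N ^ (p * (1 + ε - η)) * ((2 : ℝ) ^ l) ^ (-(p / (k : ℝ))) := by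
          simp only [hBf]
          rw [mul_pow, ← Real.rpow_natCast, ← Real.rpow_natCast (((2 : ℝ) ^ l) ^ (-(1 / (k : ℝ)))),
            ← Real.rpow_mul (by positivity), ← Real.rpow_mul (by positivity)]
          congr 2
          · ring
          · ring
        have hBp0 : 0 < (Bf i l) ^ p := pow_pos (hBf0 i l) p
        have hL : (2 : ℝ) ^ l ≤ q := by exact_mod_cast hlq
        have hL0 : (0 : ℝ) < 2 ^ l := by positivity
        have hLN : (2 : ℝ) ^ l ≤ N := pow_le_pow_right₀ (by norm_num) hli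
        have hqσ : ((2 : ℝ) ^ l) ^ σ ≤ (q : ℝ) ^ σ := Real.rpow_le_rpow (by positivity) hL hσ0
        have h2 : ((badX k (2 ^ i) t (Bf i l)).card : ℝ) * (Bf i l) ^ p ≤
            C * N ^ (p + g) / ((2 : ℝ) ^ l) ^ σ :=
          h1.trans (div_le_div_of_nonneg_left (by positivity) (by positivity) hqσ)
        have h3 : C * N ^ (p + g) / ((2 : ℝ) ^ l) ^ σ ≤ C * N ^ (e' - g) * (Bf i l) ^ p := by
          have h4 : ((2 : ℝ) ^ l) ^ (p / (k : ℝ) - σ) ≤ N ^ (p / (k : ℝ) - σ) :=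
            Real.rpow_le_rpow (by positivity) hLN (by linarith)
          have h5 : ((2 : ℝ) ^ l) ^ (p / (k : ℝ) - σ) * ((2 : ℝ) ^ l) ^ (-(p / (k : ℝ))) =
              1 / ((2 : ℝ) ^ l) ^ σ := by
            rw [← Real.rpow_add hL0, one_div, ← Real.rpow_neg hL0.le]
            congr 1
            ring
          have h6 : N ^ (e' - g) * N ^ (p * (1 + ε - η)) = N ^ (p + g) * N ^ (p / (k : ℝ) - σ) := by
            rw [← Real.rpow_add hN0, ← Real.rpow_add hN0]
            congr 1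
            rw [hη, hg]
            field_simp
            ring
          calc C * N ^ (p + g) / ((2 : ℝ) ^ l) ^ σ
              = C * N ^ (p + g) * (((2 : ℝ) ^ l) ^ (p / (k : ℝ) - σ) *
                  ((2 : ℝ) ^ l) ^ (-(p / (k : ℝ)))) := by
                rw [h5]; ring
            _ ≤ C * N ^ (p + g) * (N ^ (p / (k : ℝ) - σ) * ((2 : ℝ) ^ l) ^ (-(p / (k : ℝ)))) := by
                apply mul_le_mul_of_nonneg_left _ (by positivity)
                exact mul_le_mul_of_nonneg_right h4 (by positivity)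
            _ = C * (N ^ (p + g) * N ^ (p / (k : ℝ) - σ)) * ((2 : ℝ) ^ l) ^ (-(p / (k : ℝ))) := by
                ring
            _ = C * N ^ (e' - g) * (Bf i l) ^ p := by
                rw [← h6, hBp]; ring
        exact le_of_mul_le_mul_right (h2.trans h3) hBp0
      · rw [Finset.card_empty, Nat.cast_zero]
        positivity
    have hi : ((i : ℝ) + 1) ≤ (1 + 1 / (g * Real.log 2)) * N ^ g := by
      have hl2 : 0 < Real.log 2 := Real.log_pos (by norm_num)
      have h1 := Real.log_le_rpow_div hN0.le hg0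
      have h2 : Real.log N = i * Real.log 2 := by
        rw [hN, Real.log_pow]
      rw [h2] at h1
      have h3 : (i : ℝ) ≤ 1 / (g * Real.log 2) * N ^ g := by
        have : 1 / (g * Real.log 2) * N ^ g = N ^ g / g / Real.log 2 := by
          field_simp
        rw [this, le_div_iff₀ hl2]
        exact h1
      have h4 : 1 ≤ N ^ g := Real.one_le_rpow hN1 hg0.le
      nlinarith
    calc ((badU k t Bf i).card : ℝ) ≤ ((∑ l ∈ range (i + 1),
          ((if Sc t i l then badX k (2 ^ i) t (Bf i l) else ∅) : Finset ℕ).card : ℕ) : ℝ) := by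
          exact_mod_cast Finset.card_biUnion_le
      _ = ∑ l ∈ range (i + 1),
          (((if Sc t i l then badX k (2 ^ i) t (Bf i l) else ∅) : Finset ℕ).card : ℝ) := by
          push_cast
          rfl
      _ ≤ ∑ l ∈ range (i + 1), C * N ^ (e' - g) := Finset.sum_le_sum hone
      _ = ((i : ℝ) + 1) * (C * N ^ (e' - g)) := by
          rw [Finset.sum_const, Finset.card_range, nsmul_eq_mul]
          push_cast
          ring
      _ ≤ ((1 + 1 / (g * Real.log 2)) * N ^ g) * (C * N ^ (e' - g)) :=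
          mul_le_mul_of_nonneg_right hi (by positivity)
      _ = (1 + 1 / (g * Real.log 2)) * C * (N ^ g * N ^ (e' - g)) := by ring
      _ = (1 + 1 / (g * Real.log 2)) * C * N ^ e' := by
          rw [← Real.rpow_add hN0]
          congr 2
          ring
  · -- the covering
    intro m ξ hξE hξ n
    by_contra hcon
    push Not at hcon
    apply hξE
    -- all levels ≥ n are good
    have hgood : ∀ i, n ≤ i → ∀ l ≤ i, Sc t i l → ∀ M ≤ 2 ^ i, ‖W k M t ξ‖ ≤ 3 * Bf i l := by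
      intro i hi l hl hS
      apply good_cell k (2 ^ i) Nat.one_le_two_pow t (Bf i l) (hBf0 i l).le m ξ hξ
      intro r hr habs
      have h1 := hcon i hi r (by
        unfold badU
        rw [Finset.mem_biUnion]
        refine ⟨l, Finset.mem_range.2 (by omega), ?_⟩
        rw [if_pos hS]
        exact hr)
      apply absurd habs
      rw [not_le]
      push_cast at h1 ⊢
      exact h1
    refine ⟨2 ^ n * (2 ^ n) + 3 * 2 ^ (1 + ε) * 2 , ?_⟩
    intro M hM a q ha haq hqM hcop happ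
    have hM0 : (0 : ℝ) < M := by exact_mod_cast hM
    have hM1 : (1 : ℝ) ≤ M := by exact_mod_cast hM
    have hq0 : (0 : ℝ) < q := by
      have : 0 < q := by omega
      exact_mod_cast this
    have hq1 : (1 : ℝ) ≤ q := by exact_mod_cast (by omega : 1 ≤ q)
    have hMe : 1 ≤ (M : ℝ) ^ (1 + ε) := Real.one_le_rpow hM1 (by linarith)
    have hqk : 0 < (1 / (q : ℝ)) ^ (1 / (k : ℝ)) := by positivity
    by_cases hc : M < 2 ^ n
    · have h1 : ‖W k M t ξ‖ ≤ 2 ^ n := by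
        refine (norm_W_le' _ _ _ _).trans ?_
        exact_mod_cast hc.le
      have h2 : (1 : ℝ) ≤ 2 ^ n * (1 / (q : ℝ)) ^ (1 / (k : ℝ)) := by
        have h3 : (q : ℝ) ≤ 2 ^ n := by
          have : q ≤ 2 ^ n := by omega
          exact_mod_cast this
        have h4 : 1 / (q : ℝ) ≤ (1 / (q : ℝ)) ^ (1 / (k : ℝ)) := by
          have h5 : 1 / (q : ℝ) ≤ 1 := by rw [div_le_one hq0]; exact hq1
          calc 1 / (q : ℝ) = (1 / (q : ℝ)) ^ (1 : ℝ) := (Real.rpow_one _).symm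
            _ ≤ (1 / (q : ℝ)) ^ (1 / (k : ℝ)) := by
              apply Real.rpow_le_rpow_of_exponent_ge (by positivity) h5
              rw [div_le_one hk0]
              exact_mod_cast hk
        calc (1 : ℝ) = q * (1 / q) := by field_simp
          _ ≤ 2 ^ n * (1 / (q : ℝ)) ^ (1 / (k : ℝ)) := mul_le_mul h3 h4 (by positivity) (by positivity)
      calc ‖W k M t ξ‖ ≤ 2 ^ n * 1 * 1 := by rw [mul_one, mul_one]; exact h1
        _ ≤ 2 ^ n * (M : ℝ) ^ (1 + ε) * (2 ^ n * (1 / (q : ℝ)) ^ (1 / (k : ℝ))) := by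
            apply mul_le_mul _ h2 (by norm_num) (by positivity)
            exact mul_le_mul_of_nonneg_left hMe (by positivity)
        _ = (2 ^ n * 2 ^ n) * (M : ℝ) ^ (1 + ε) * (1 / (q : ℝ)) ^ (1 / (k : ℝ)) := by ring
        _ ≤ _ := by
            apply mul_le_mul_of_nonneg_right _ hqk.le
            apply mul_le_mul_of_nonneg_right _ (by positivity)
            have : (0 : ℝ) ≤ 3 * 2 ^ (1 + ε) * 2 := by positivity
            linarith
    · push Not at hc
      set i := Nat.log 2 M + 1 with hi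
      have hi1 : M ≤ 2 ^ i := (Nat.lt_pow_succ_log_self (by norm_num) M).le
      have hi2 : 2 ^ i ≤ 2 * M := by
        have := Nat.pow_log_le_self 2 (by omega : M ≠ 0)
        rw [hi, pow_succ]
        omega
      have hi3 : n ≤ i := by
        have := (Nat.le_log_iff_pow_le (by norm_num) (by omega : M ≠ 0)).2 hc
        omega
      set l := Nat.log 2 q with hl
      have hl1 : 2 ^ l ≤ q := Nat.pow_log_le_self 2 (by omega)
      have hl2 : q < 2 ^ (l + 1) := Nat.lt_pow_succ_log_self (by norm_num) q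
      have hli : l ≤ i := by
        have : 2 ^ l ≤ 2 ^ i := by omega
        exact (Nat.pow_le_pow_iff_right (by norm_num)).1 this
      have hS : Sc t i l := ⟨a, q, ha, haq, hl1, hl2, by omega, hcop, happ⟩
      have h1 := hgood i hi3 l hli hS M hi1
      have h2 : Bf i l ≤ 2 ^ (1 + ε) * (M : ℝ) ^ (1 + ε) * (2 * (1 / (q : ℝ)) ^ (1 / (k : ℝ))) := by
        simp only [hBf]
        have hMi : (2 : ℝ) ^ i ≤ 2 * M := by exact_mod_cast hi2
        have h2i : (1 : ℝ) ≤ (2 : ℝ) ^ i := one_le_pow₀ (by norm_num)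
        apply mul_le_mul _ _ (by positivity) (by positivity)
        · calc ((2 : ℝ) ^ i) ^ (1 + ε - η) ≤ ((2 : ℝ) ^ i) ^ (1 + ε) :=
                Real.rpow_le_rpow_of_exponent_le h2i (by linarith)
            _ ≤ (2 * M) ^ (1 + ε) := Real.rpow_le_rpow (by positivity) hMi (by linarith)
            _ = 2 ^ (1 + ε) * (M : ℝ) ^ (1 + ε) := Real.mul_rpow (by norm_num) hM0.le
        · have hq2 : (q : ℝ) / 2 ≤ 2 ^ l := by
            have h3 : q ≤ 2 * 2 ^ l := by
              rw [pow_succ] at hl2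
              omega
            have h4 : (q : ℝ) ≤ 2 * 2 ^ l := by exact_mod_cast h3
            linarith
          have h5 : ((2 : ℝ) ^ l) ^ (-(1 / (k : ℝ))) ≤ ((q : ℝ) / 2) ^ (-(1 / (k : ℝ))) := by
            apply Real.rpow_le_rpow_of_nonpos (by positivity) hq2
            have : 0 < 1 / (k : ℝ) := by positivity
            linarith
          have h6 : ((q : ℝ) / 2) ^ (-(1 / (k : ℝ))) = 2 ^ (1 / (k : ℝ)) * (1 / (q : ℝ)) ^ (1 / (k : ℝ)) := by
            rw [Real.rpow_neg (by positivity), ← Real.inv_rpow (by positivity), inv_div,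
              ← Real.mul_rpow (by norm_num) (by positivity)]
            congr 1
            ring
          have h7 : (2 : ℝ) ^ (1 / (k : ℝ)) ≤ 2 := by
            calc (2 : ℝ) ^ (1 / (k : ℝ)) ≤ 2 ^ (1 : ℝ) := by
                  apply Real.rpow_le_rpow_of_exponent_le (by norm_num)
                  rw [div_le_one hk0]
                  exact_mod_cast hk
              _ = 2 := Real.rpow_one 2
          refine h5.trans ?_
          rw [h6]
          exact mul_le_mul_of_nonneg_right h7 hqk.le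
      calc ‖W k M t ξ‖ ≤ 3 * Bf i l := h1
        _ ≤ 3 * (2 ^ (1 + ε) * (M : ℝ) ^ (1 + ε) * (2 * (1 / (q : ℝ)) ^ (1 / (k : ℝ)))) := by
            linarith
        _ = (3 * 2 ^ (1 + ε) * 2) * (M : ℝ) ^ (1 + ε) * (1 / (q : ℝ)) ^ (1 / (k : ℝ)) := by ring
        _ ≤ _ := by
            apply mul_le_mul_of_nonneg_right _ hqk.le
            apply mul_le_mul_of_nonneg_right _ (by positivity)
            have : (0 : ℝ) ≤ 2 ^ n * 2 ^ n := by positivity
            linarith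

/-- The measure of the set of `ξ` with a large partial sum. -/
theorem measure_bad (δ : ℝ) (hδ : 0 < δ) : ∃ C : ℝ, 0 ≤ C ∧ ∀ N : ℕ, 1 ≤ N →
    ∀ (t : ℝ) (a : ℤ) (q : ℕ), 1 ≤ q → q ≤ N → IsCoprime a (q : ℤ) →
    |t - (a : ℝ) / q| ≤ 1 / (q : ℝ) ^ 2 → ∀ B : ℝ, 0 < B →
    volume {ξ : ℝ | 0 ≤ ξ ∧ ξ < 1 ∧ ∃ M ≤ N, B < ‖W 3 M t ξ‖} ≤
      ENNReal.ofReal (C * (N : ℝ) ^ (3 + δ) / (q * B ^ 4)) := by
  classical
  obtain ⟨C, hC0, hC⟩ := card_badX_le 3 4 1 mom_three δ hδ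
  refine ⟨81 * C, by positivity, ?_⟩
  intro N hN t a q hq hqN hcop happ B hB
  have hN0 : (0 : ℝ) < N := by exact_mod_cast hN
  have hq0 : (0 : ℝ) < q := by exact_mod_cast hq
  set Q : ℕ := 4 * N with hQ
  have hQ0 : (0 : ℝ) < Q := by
    have : 0 < Q := by omega
    exact_mod_cast this
  have h1 := hC N hN t a q hq hqN hcop happ (B / 3) (by positivity)
  rw [Real.rpow_one] at h1
  have hsub : {ξ : ℝ | 0 ≤ ξ ∧ ξ < 1 ∧ ∃ M ≤ N, B < ‖W 3 M t ξ‖} ⊆
      ⋃ r ∈ badX 3 N t (B / 3), Metric.closedBall ((r : ℝ) / Q) (1 / Q) := by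
    intro ξ hξ
    rw [Set.mem_ofPred_eq] at hξ
    by_contra hcon
    obtain ⟨h0, h1', M, hM, hB'⟩ := hξ
    have h2 := good_cell 3 N hN t (B / 3) (by positivity) 0 ξ (by
      rw [Set.mem_Ico]
      push_cast
      constructor <;> linarith) (by
      intro r hr habs
      apply hcon
      rw [Set.mem_iUnion₂]
      refine ⟨r, hr, ?_⟩
      rw [Metric.mem_closedBall, Real.dist_eq]
      rw [Int.cast_zero, zero_add] at habs
      exact habs) M hM
    linarith
  have hcard : ((badX 3 N t (B / 3)).card : ℝ) * (2 / Q) ≤ 81 * C * (N : ℝ) ^ (3 + δ) / (q * B ^ 4) := by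
    have h2 : ((badX 3 N t (B / 3)).card : ℝ) ≤ 81 * C * (N : ℝ) ^ (4 + δ) / (q * B ^ 4) := by
      have e1 : (B / 3) ^ 4 = B ^ 4 / 81 := by ring
      rw [e1] at h1
      rw [le_div_iff₀ (by positivity)]
      have h3 : ((badX 3 N t (B / 3)).card : ℝ) * (q * B ^ 4) =
          81 * q * (((badX 3 N t (B / 3)).card : ℝ) * (B ^ 4 / 81)) := by ring
      rw [h3]
      have h4 := mul_le_mul_of_nonneg_left h1 (by positivity : (0 : ℝ) ≤ 81 * q)
      refine h4.trans (le_of_eq ?_)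
      push_cast
      field_simp
    calc ((badX 3 N t (B / 3)).card : ℝ) * (2 / Q) ≤
          (81 * C * (N : ℝ) ^ (4 + δ) / (q * B ^ 4)) * (2 / Q) :=
          mul_le_mul_of_nonneg_right h2 (by positivity)
      _ = 81 * C * (N : ℝ) ^ (3 + δ) / (q * B ^ 4) * (1 / 2) := by
          have e : (N : ℝ) ^ (4 + δ) = N * (N : ℝ) ^ (3 + δ) := by
            have : (4 : ℝ) + δ = 1 + (3 + δ) := by ring
            rw [this, Real.rpow_add hN0, Real.rpow_one]
          rw [e, hQ]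
          push_cast
          field_simp
          norm_num
      _ ≤ 81 * C * (N : ℝ) ^ (3 + δ) / (q * B ^ 4) * 1 :=
          mul_le_mul_of_nonneg_left (by norm_num) (by positivity)
      _ = _ := mul_one _
  calc volume {ξ : ℝ | 0 ≤ ξ ∧ ξ < 1 ∧ ∃ M ≤ N, B < ‖W 3 M t ξ‖}
      ≤ volume (⋃ r ∈ badX 3 N t (B / 3), Metric.closedBall ((r : ℝ) / Q) (1 / Q)) :=
        measure_mono hsub
    _ ≤ ∑ r ∈ badX 3 N t (B / 3), volume (Metric.closedBall ((r : ℝ) / Q) (1 / (Q : ℝ))) :=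
        measure_biUnion_finset_le _ _
    _ = ENNReal.ofReal (((badX 3 N t (B / 3)).card : ℝ) * (2 / Q)) := by
        have hv : ∀ r ∈ badX 3 N t (B / 3), volume (Metric.closedBall ((r : ℝ) / Q) (1 / (Q : ℝ))) =
            ENNReal.ofReal (2 / Q) := by
          intro r _
          rw [Real.volume_closedBall]
          congr 1
          ring
        rw [Finset.sum_congr rfl hv, Finset.sum_const, nsmul_eq_mul,
          ENNReal.ofReal_mul (by positivity), ENNReal.ofReal_natCast]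
    _ ≤ _ := ENNReal.ofReal_le_ofReal hcard

end Pool.Agent.Helper20_Mont
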