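import Pool.Agent.Helper20_Mont.Block

set_option autoImplicit false

/-! The fourth moment in `ξ` of the cubic Weyl sum, for fixed `t`. -/

namespace Pool.Agent.Helper20_Mont

open Finset Pool.Agent.Helper69_Weyl

theorem W_int (k N : ℕ) (t ξ : ℝ) :
    W k N t ξ = ∑ n ∈ Icc (1 : ℤ) N, ee (t * (n : ℝ) ^ k + ξ * (n : ℝ)) := by
  unfold W
  apply Finset.sum_nbij' (fun m : ℕ => (m : ℤ)) (fun n : ℤ => n.toNat)
  · intro m hm
    rw [Finset.mem_Icc] at hm ⊢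
    omega
  · intro n hn
    rw [Finset.mem_Icc] at hn ⊢
    omega
  · intro m hm
    rw [Finset.mem_Icc] at hm
    omega
  · intro n hn
    rw [Finset.mem_Icc] at hn
    omega
  · intro m _
    push_cast
    rfl

theorem norm_four (N : ℕ) (t ξ : ℝ) :
    ((‖W 3 N t ξ‖ ^ 4 : ℝ) : ℂ) = ∑ a ∈ Icc (1 : ℤ) N, ∑ b ∈ Icc (1 : ℤ) N, ∑ c ∈ Icc (1 : ℤ) N,
      ∑ d ∈ Icc (1 : ℤ) N, ee (t * ((a ^ 3 - b ^ 3 - c ^ 3 + d ^ 3 : ℤ) : ℝ) +
        ξ * ((a - b - c + d : ℤ) : ℝ)) := by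
  have h1 : ((‖W 3 N t ξ‖ ^ 4 : ℝ) : ℂ) =
      W 3 N t ξ * ((starRingEnd ℂ) (W 3 N t ξ) * ((starRingEnd ℂ) (W 3 N t ξ) * W 3 N t ξ)) := by
    have : ((‖W 3 N t ξ‖ ^ 4 : ℝ) : ℂ) = ((‖W 3 N t ξ‖ : ℂ) ^ 2) * ((‖W 3 N t ξ‖ : ℂ) ^ 2) := by
      push_cast
      ring
    rw [this, ← Complex.mul_conj']
    ring
  rw [h1, W_int, map_sum, Finset.sum_mul]
  apply Finset.sum_congr rfl
  intro a _
  rw [Finset.sum_mul, Finset.mul_sum]
  apply Finset.sum_congr rfl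
  intro b _
  rw [Finset.sum_mul, Finset.mul_sum, Finset.mul_sum]
  apply Finset.sum_congr rfl
  intro c _
  rw [Finset.mul_sum, Finset.mul_sum, Finset.mul_sum]
  apply Finset.sum_congr rfl
  intro d _
  rw [conj_ee, conj_ee, ← ee_add, ← ee_add, ← ee_add]
  congr 1
  push_cast
  ring

theorem shift_sum (N : ℕ) (n : ℤ) (hn : n ∈ Icc (1 : ℤ) N) (F : ℤ → ℂ) :
    ∑ m ∈ Icc (1 : ℤ) N, F m = ∑ g ∈ Icc (-(N : ℤ)) N,
      if n + g ∈ Icc (1 : ℤ) N then F (n + g) else 0 := by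
  rw [← Finset.sum_filter]
  symm
  rw [Finset.mem_Icc] at hn
  apply Finset.sum_nbij' (fun g => n + g) (fun m => m - n)
  · intro g hg
    exact (Finset.mem_filter.1 hg).2
  · intro m hm
    rw [Finset.mem_Icc] at hm
    rw [Finset.mem_filter, Finset.mem_Icc, Finset.mem_Icc]
    omega
  · intro g _
    ring
  · intro m _
    ring
  · intro g _
    rfl

open Classical in
/-- the common support -/
noncomputable def supp (N : ℕ) (g h : ℤ) : Finset ℤ :=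
  (Icc (1 : ℤ) N).filter (fun n => n + g ∈ Icc (1 : ℤ) N ∧ n + h ∈ Icc (1 : ℤ) N ∧
    n + g + h ∈ Icc (1 : ℤ) N)

theorem supp_eq (N : ℕ) (g h : ℤ) :
    supp N g h = Icc (max (max 1 (1 - g)) (max (1 - h) (1 - g - h)))
      (min (min (N : ℤ) (N - g)) (min (N - h) (N - g - h))) := by
  ext n
  unfold supp
  simp only [Finset.mem_filter, Finset.mem_Icc, max_le_iff, le_min_iff]
  constructor
  · rintro ⟨h1, h2, h3, h4⟩
    refine ⟨⟨⟨?_, ?_⟩, ?_, ?_⟩, ⟨?_, ?_⟩, ?_, ?_⟩ <;> omega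
  · rintro ⟨⟨⟨h1, h2⟩, h3, h4⟩, ⟨h5, h6⟩, h7, h8⟩
    refine ⟨⟨?_, ?_⟩, ⟨?_, ?_⟩, ⟨?_, ?_⟩, ?_, ?_⟩ <;> omega

theorem cube_identity (N Q : ℕ) (hQ : 2 * N ≤ Q) (hQ0 : 0 < Q) (t : ℝ) :
    ((∑ j ∈ range Q, ‖W 3 N t ((j : ℝ) / Q)‖ ^ 4 : ℝ) : ℂ) =
      (Q : ℂ) * ∑ g ∈ Icc (-(N : ℤ)) N, ∑ h ∈ Icc (-(N : ℤ)) N,
        ∑ n ∈ supp N g h, ee (t * (3 * g * h * (g + h)) + 6 * t * (g * h) * n) := by
  classical
  have e0 : ((∑ j ∈ range Q, ‖W 3 N t ((j : ℝ) / Q)‖ ^ 4 : ℝ) : ℂ) =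
      ∑ a ∈ Icc (1 : ℤ) N, ∑ b ∈ Icc (1 : ℤ) N, ∑ c ∈ Icc (1 : ℤ) N,
      ∑ d ∈ Icc (1 : ℤ) N, ∑ j ∈ range Q, ee (t * ((a ^ 3 - b ^ 3 - c ^ 3 + d ^ 3 : ℤ) : ℝ) +
        ((j : ℝ) / Q) * ((a - b - c + d : ℤ) : ℝ)) := by
    rw [Complex.ofReal_sum]
    simp only [norm_four]
    rw [Finset.sum_comm]
    apply Finset.sum_congr rfl
    intro a _
    rw [Finset.sum_comm]
    apply Finset.sum_congr rfl
    intro b _
    rw [Finset.sum_comm]
    apply Finset.sum_congr rfl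
    intro c _
    rw [Finset.sum_comm]
  rw [e0]
  -- orthogonality
  have e1 : ∀ a ∈ Icc (1 : ℤ) N, ∀ b ∈ Icc (1 : ℤ) N, ∀ c ∈ Icc (1 : ℤ) N,
      ∑ d ∈ Icc (1 : ℤ) N, ∑ j ∈ range Q, ee (t * ((a ^ 3 - b ^ 3 - c ^ 3 + d ^ 3 : ℤ) : ℝ) +
        ((j : ℝ) / Q) * ((a - b - c + d : ℤ) : ℝ)) =
      if b + c - a ∈ Icc (1 : ℤ) N then
        (Q : ℂ) * ee (t * ((a ^ 3 - b ^ 3 - c ^ 3 + (b + c - a) ^ 3 : ℤ) : ℝ)) else 0 := by
    intro a ha b hb c hc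
    have e2 : ∀ d ∈ Icc (1 : ℤ) N, ∑ j ∈ range Q,
        ee (t * ((a ^ 3 - b ^ 3 - c ^ 3 + d ^ 3 : ℤ) : ℝ) + ((j : ℝ) / Q) * ((a - b - c + d : ℤ) : ℝ)) =
        if d = b + c - a then (Q : ℂ) * ee (t * ((a ^ 3 - b ^ 3 - c ^ 3 + d ^ 3 : ℤ) : ℝ)) else 0 := by
      intro d hd
      simp only [ee_add]
      rw [← Finset.mul_sum, sum_ee_div Q hQ0]
      rw [Finset.mem_Icc] at ha hb hc hd
      by_cases h : d = b + c - a
      · rw [if_pos h]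
        have : a - b - c + d = 0 := by omega
        rw [this]
        simp
        ring
      · rw [if_neg h]
        have hnd : ¬ (Q : ℤ) ∣ (a - b - c + d) := by
          intro hdv
          have h5 : |(a - b - c + d)| < Q := by
            rw [abs_lt]
            constructor <;> omega
          have := Int.eq_zero_of_abs_lt_dvd hdv h5
          omega
        rw [if_neg hnd, mul_zero]
    rw [Finset.sum_congr rfl e2, Finset.sum_ite_eq' (Icc (1 : ℤ) N) (b + c - a)]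
  have e3 : ∑ a ∈ Icc (1 : ℤ) N, ∑ b ∈ Icc (1 : ℤ) N, ∑ c ∈ Icc (1 : ℤ) N,
      ∑ d ∈ Icc (1 : ℤ) N, ∑ j ∈ range Q, ee (t * ((a ^ 3 - b ^ 3 - c ^ 3 + d ^ 3 : ℤ) : ℝ) +
        ((j : ℝ) / Q) * ((a - b - c + d : ℤ) : ℝ)) =
      ∑ a ∈ Icc (1 : ℤ) N, ∑ b ∈ Icc (1 : ℤ) N, ∑ c ∈ Icc (1 : ℤ) N,
        if b + c - a ∈ Icc (1 : ℤ) N then
        (Q : ℂ) * ee (t * ((a ^ 3 - b ^ 3 - c ^ 3 + (b + c - a) ^ 3 : ℤ) : ℝ)) else 0 := by
    apply Finset.sum_congr rfl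
    intro a ha
    apply Finset.sum_congr rfl
    intro b hb
    apply Finset.sum_congr rfl
    intro c hc
    exact e1 a ha b hb c hc
  rw [e3]
  have e4 : ∀ a ∈ Icc (1 : ℤ) N, ∑ b ∈ Icc (1 : ℤ) N, ∑ c ∈ Icc (1 : ℤ) N,
        (if b + c - a ∈ Icc (1 : ℤ) N then
        (Q : ℂ) * ee (t * ((a ^ 3 - b ^ 3 - c ^ 3 + (b + c - a) ^ 3 : ℤ) : ℝ)) else 0) =
      ∑ g ∈ Icc (-(N : ℤ)) N, ∑ h ∈ Icc (-(N : ℤ)) N,
        if (a + g ∈ Icc (1 : ℤ) N ∧ a + h ∈ Icc (1 : ℤ) N ∧ a + g + h ∈ Icc (1 : ℤ) N) then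
        (Q : ℂ) * ee (t * (3 * g * h * (g + h)) + 6 * t * (g * h) * a) else 0 := by
    intro a ha
    rw [shift_sum N a ha]
    apply Finset.sum_congr rfl
    intro g _
    by_cases h1 : a + g ∈ Icc (1 : ℤ) N
    · rw [if_pos h1, shift_sum N a ha]
      apply Finset.sum_congr rfl
      intro h _
      have e5 : a + g + (a + h) - a = a + g + h := by ring
      rw [e5]
      by_cases h2 : a + h ∈ Icc (1 : ℤ) N
      · rw [if_pos h2]
        by_cases h3 : a + g + h ∈ Icc (1 : ℤ) N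
        · rw [if_pos h3, if_pos ⟨h1, h2, h3⟩]
          congr 2
          push_cast
          ring
        · rw [if_neg h3, if_neg (fun hh => h3 hh.2.2)]
      · rw [if_neg h2, if_neg (fun hh => h2 hh.2.1)]
    · rw [if_neg h1]
      symm
      apply Finset.sum_eq_zero
      intro h _
      rw [if_neg (fun hh => h1 hh.1)]
  rw [Finset.sum_congr rfl e4, Finset.sum_comm, Finset.mul_sum]
  apply Finset.sum_congr rfl
  intro g _
  rw [Finset.sum_comm, Finset.mul_sum]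
  apply Finset.sum_congr rfl
  intro h _
  rw [← Finset.sum_filter, Finset.mul_sum]
  unfold supp
  apply Finset.sum_congr
  · ext n
    simp only [Finset.mem_filter]
  · intro n _
    rfl

theorem fourth_le_phi (N Q : ℕ) (hQ : 2 * N ≤ Q) (hQ0 : 0 < Q) (t : ℝ) :
    ∑ j ∈ range Q, ‖W 3 N t ((j : ℝ) / Q)‖ ^ 4 ≤
      (Q : ℝ) * ∑ g ∈ Icc (-(N : ℤ)) N, ∑ h ∈ Icc (-(N : ℤ)) N,
        Phi N (6 * t * ((g * h : ℤ) : ℝ)) := by
  have h0 := cube_identity N Q hQ hQ0 t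
  have h1 : ∑ j ∈ range Q, ‖W 3 N t ((j : ℝ) / Q)‖ ^ 4 =
      ‖((∑ j ∈ range Q, ‖W 3 N t ((j : ℝ) / Q)‖ ^ 4 : ℝ) : ℂ)‖ := by
    rw [Complex.norm_real, Real.norm_eq_abs, abs_of_nonneg]
    exact Finset.sum_nonneg (fun _ _ => by positivity)
  rw [h1, h0, norm_mul, Complex.norm_natCast]
  apply mul_le_mul_of_nonneg_left _ (Nat.cast_nonneg Q)
  refine (norm_sum_le _ _).trans (Finset.sum_le_sum fun g _ => ?_)
  refine (norm_sum_le _ _).trans (Finset.sum_le_sum fun h _ => ?_)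
  have e1 : ∀ n ∈ supp N g h, ee (t * (3 * g * h * (g + h)) + 6 * t * (g * h) * n) =
      ee (t * (3 * g * h * (g + h))) * ee (6 * t * ((g * h : ℤ) : ℝ) * n) := by
    intro n _
    rw [← ee_add]
    congr 1
    push_cast
    ring
  rw [Finset.sum_congr rfl e1, ← Finset.mul_sum, norm_mul, norm_ee, one_mul, supp_eq]
  apply norm_geom_int
  have h2 := min_le_left (min (N : ℤ) (N - g)) (min (N - h) (N - g - h))
  have h3 := min_le_left (N : ℤ) (N - g)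
  have h4 := le_max_left (max 1 (1 - g)) (max (1 - h) (1 - g - h))
  have h5 := le_max_left (1 : ℤ) (1 - g)
  omega

theorem sum_sym (G : ℤ → ℝ) (hG : ∀ g, G (-g) = G g) (N : ℕ) :
    ∑ g ∈ Icc (-(N : ℤ)) N, G g = G 0 + 2 * ∑ g ∈ Icc 1 N, G (g : ℤ) := by
  induction N with
  | zero => simp
  | succ N ih =>
    have e1 : Icc (-((N + 1 : ℕ) : ℤ)) ((N + 1 : ℕ) : ℤ) =
        insert (-((N + 1 : ℕ) : ℤ)) (insert ((N + 1 : ℕ) : ℤ) (Icc (-(N : ℤ)) N)) := by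
      ext x
      simp only [Finset.mem_insert, Finset.mem_Icc]
      push_cast
      constructor
      · intro h
        omega
      · intro h
        omega
    rw [e1, Finset.sum_insert, Finset.sum_insert, ih, Finset.sum_Icc_succ_top (by omega), hG]
    · ring
    · rw [Finset.mem_Icc]
      push_cast
      omega
    · rw [Finset.mem_insert, Finset.mem_Icc]
      push_cast
      omega

theorem Phi_zero (N : ℝ) : Phi N 0 = 2 * N := by
  unfold Phi nd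
  simp

theorem double_sym (N : ℕ) (t : ℝ) :
    ∑ g ∈ Icc (-(N : ℤ)) N, ∑ h ∈ Icc (-(N : ℤ)) N, Phi N (6 * t * ((g * h : ℤ) : ℝ)) =
      (4 * N + 1) * (2 * N) + 4 * ∑ g ∈ Icc 1 N, ∑ h ∈ Icc 1 N,
        Phi N (6 * t * ((g * h : ℕ) : ℝ)) := by
  have h1 : ∀ g : ℤ, ∑ h ∈ Icc (-(N : ℤ)) N, Phi N (6 * t * ((g * h : ℤ) : ℝ)) =
      2 * N + 2 * ∑ h ∈ Icc 1 N, Phi N (6 * t * ((g * (h : ℤ) : ℤ) : ℝ)) := by
    intro g
    rw [sum_sym (fun h => Phi N (6 * t * ((g * h : ℤ) : ℝ)))]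
    · simp only [mul_zero, Int.cast_zero]
      rw [Phi_zero]
    · intro h
      have : 6 * t * ((g * -h : ℤ) : ℝ) = -(6 * t * ((g * h : ℤ) : ℝ)) := by
        push_cast
        ring
      rw [this, Phi_neg]
  simp only [h1]
  rw [Finset.sum_add_distrib, Finset.sum_const, Int.card_Icc, ← Finset.mul_sum, Finset.sum_comm]
  have h2 : ∀ h ∈ Icc 1 N, ∑ g ∈ Icc (-(N : ℤ)) N, Phi N (6 * t * ((g * ((h : ℕ) : ℤ) : ℤ) : ℝ)) =
      2 * N + 2 * ∑ g ∈ Icc 1 N, Phi N (6 * t * ((g * h : ℕ) : ℝ)) := by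
    intro h _
    rw [sum_sym (fun g => Phi N (6 * t * ((g * ((h : ℕ) : ℤ) : ℤ) : ℝ)))]
    · simp only [zero_mul, Int.cast_zero, mul_zero]
      rw [Phi_zero]
      congr 2
    · intro g
      have : 6 * t * ((-g * ((h : ℕ) : ℤ) : ℤ) : ℝ) = -(6 * t * ((g * ((h : ℕ) : ℤ) : ℤ) : ℝ)) := by
        push_cast
        ring
      rw [this, Phi_neg]
  rw [Finset.sum_congr rfl h2, Finset.sum_add_distrib, Finset.sum_const, Nat.card_Icc,
    ← Finset.mul_sum, Finset.sum_comm]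
  have h3 : ((N : ℤ) + 1 - -(N : ℤ)).toNat = 2 * N + 1 := by omega
  rw [h3]
  simp only [nsmul_eq_mul]
  push_cast
  ring

/-- collecting products -/
theorem prod_sum_le (N : ℕ) (f : ℕ → ℝ) (hf : ∀ u, 0 ≤ f u) (D : ℝ)
    (hD : ∀ u ∈ Icc 1 (N * N), ((u.divisors.card : ℕ) : ℝ) ≤ D) :
    ∑ g ∈ Icc 1 N, ∑ h ∈ Icc 1 N, f (g * h) ≤ D * ∑ u ∈ Icc 1 (N * N), f u := by
  classical
  rw [← Finset.sum_product']
  have hmaps : ∀ p ∈ Icc 1 N ×ˢ Icc 1 N, p.1 * p.2 ∈ Icc 1 (N * N) := by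
    intro p hp
    rw [Finset.mem_product, Finset.mem_Icc, Finset.mem_Icc] at hp
    rw [Finset.mem_Icc]
    exact ⟨Nat.mul_pos (by omega) (by omega), Nat.mul_le_mul hp.1.2 hp.2.2⟩
  rw [← Finset.sum_fiberwise_of_maps_to hmaps, Finset.mul_sum]
  apply Finset.sum_le_sum
  intro u hu
  have h1 : ∑ p ∈ (Icc 1 N ×ˢ Icc 1 N).filter (fun p => p.1 * p.2 = u), f (p.1 * p.2) =
      (((Icc 1 N ×ˢ Icc 1 N).filter (fun p => p.1 * p.2 = u)).card : ℝ) * f u := by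
    rw [← nsmul_eq_mul, ← Finset.sum_const]
    apply Finset.sum_congr rfl
    intro p hp
    rw [(Finset.mem_filter.1 hp).2]
  rw [h1]
  apply mul_le_mul_of_nonneg_right _ (hf u)
  refine le_trans ?_ (hD u hu)
  have h2 : ((Icc 1 N ×ˢ Icc 1 N).filter (fun p => p.1 * p.2 = u)).card ≤ u.divisors.card := by
    have hu0 : u ≠ 0 := by
      have := (Finset.mem_Icc.1 hu).1
      omega
    apply Finset.card_le_card_of_injOn (fun p => p.1)
    · intro p hp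
      rw [Finset.mem_coe, Finset.mem_filter] at hp
      rw [Finset.mem_coe, Nat.mem_divisors]
      exact ⟨⟨p.2, hp.2.symm⟩, hu0⟩
    · intro p hp p' hp' hpp
      rw [Finset.mem_coe, Finset.mem_filter, Finset.mem_product, Finset.mem_Icc] at hp hp'
      have h5 : p.1 = p'.1 := hpp
      have h6 : p.1 * p.2 = p.1 * p'.2 := by
        rw [hp.2]
        nth_rewrite 1 [← hp'.2]
        rw [h5]
      have h7 := Nat.eq_of_mul_eq_mul_left (by omega : 0 < p.1) h6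
      exact Prod.ext h5 h7
  exact_mod_cast h2

/-- The fourth moment of the cubic Weyl sum for fixed `t`. -/
theorem fourth (δ : ℝ) (hδ : 0 < δ) : ∃ C : ℝ, 0 ≤ C ∧ ∀ N : ℕ, 1 ≤ N → ∀ (t : ℝ) (a : ℤ) (q : ℕ),
    1 ≤ q → q ≤ N → IsCoprime a (q : ℤ) → |t - (a : ℝ) / q| ≤ 1 / (q : ℝ) ^ 2 →
    ∑ j ∈ range (4 * N), ‖W 3 N t ((j : ℝ) / ((4 * N : ℕ) : ℝ))‖ ^ 4 ≤ C * (N : ℝ) ^ (4 + δ) / q := by
  obtain ⟨D, hD1, hD⟩ := exists_card_divisors_le (δ / 4) (by positivity)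
  refine ⟨4 * (10 + 4 * (D * (8 * (12 + 2 / (δ / 2))))), by positivity, ?_⟩
  intro N hN t a q hq hqN hcop happ
  have hN0 : (0 : ℝ) < N := by exact_mod_cast hN
  have hN1 : (1 : ℝ) ≤ N := by exact_mod_cast hN
  have hq0 : (0 : ℝ) < q := by exact_mod_cast hq
  have hq1 : (1 : ℝ) ≤ q := by exact_mod_cast hq
  have hqN' : (q : ℝ) ≤ N := by exact_mod_cast hqN
  have h1 := fourth_le_phi N (4 * N) (by omega) (by omega) t
  rw [double_sym] at h1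
  have h2 := prod_sum_le N (fun u => Phi N (6 * t * (u : ℝ))) (fun u => Phi_nonneg _ hN0.le _)
    (D * (N : ℝ) ^ (δ / 2)) (by
      intro u hu
      rw [Finset.mem_Icc] at hu
      refine (hD u (by omega)).trans ?_
      apply mul_le_mul_of_nonneg_left _ (by linarith)
      have h3 : (u : ℝ) ≤ (N : ℝ) ^ (2 : ℝ) := by
        have : (u : ℝ) ≤ ((N * N : ℕ) : ℝ) := by exact_mod_cast hu.2
        refine this.trans (le_of_eq ?_)
        rw [Real.rpow_two]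
        push_cast
        ring
      calc (u : ℝ) ^ (δ / 4) ≤ ((N : ℝ) ^ (2 : ℝ)) ^ (δ / 4) :=
            Real.rpow_le_rpow (Nat.cast_nonneg u) h3 (by positivity)
        _ = (N : ℝ) ^ (δ / 2) := by
            rw [← Real.rpow_mul hN0.le]
            congr 1
            ring)
  have h3 := sum_six t a q hq hcop happ N hN0.le (N * N)
  have hlog0 : 0 ≤ Real.log N := Real.log_nonneg hN1
  have hlogq : Real.log q ≤ Real.log N := Real.log_le_log hq0 hqN'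
  have hlogq0 : 0 ≤ Real.log q := Real.log_nonneg hq1
  have hlog : Real.log N ≤ 1 / (δ / 2) * (N : ℝ) ^ (δ / 2) := by
    have := Real.log_le_rpow_div hN0.le (by positivity : 0 < δ / 2)
    rw [div_eq_inv_mul] at this
    rw [one_div]
    exact this
  have hNd : 1 ≤ (N : ℝ) ^ (δ / 2) := Real.one_le_rpow hN1 (by positivity)
  -- bound for the last sum
  have h4 : ∑ u ∈ Icc 1 (N * N), Phi N (6 * t * (u : ℝ)) ≤
      8 * (12 + 2 / (δ / 2)) * (N : ℝ) ^ (δ / 2) * ((N : ℝ) ^ 3 / q) := by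
    refine h3.trans ?_
    have a1 : 6 * ((N * N : ℕ) : ℝ) / q + 2 ≤ 8 * ((N : ℝ) ^ 2 / q) := by
      have : (2 : ℝ) ≤ 2 * ((N : ℝ) ^ 2 / q) := by
        have h5 : (1 : ℝ) ≤ (N : ℝ) ^ 2 / q := by
          rw [le_div_iff₀ hq0]
          nlinarith
        linarith
      have e : 6 * ((N * N : ℕ) : ℝ) / q = 6 * ((N : ℝ) ^ 2 / q) := by
        push_cast
        ring
      rw [e]
      linarith
    have a2 : 10 * (N : ℝ) + 2 * q * (1 + Real.log q) ≤ N * ((12 + 2 / (δ / 2)) * (N : ℝ) ^ (δ / 2)) := by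
      have b1 : 2 * (q : ℝ) * (1 + Real.log q) ≤ 2 * N * (1 + Real.log N) := by
        apply mul_le_mul (by linarith) (by linarith) (by linarith) (by positivity)
      have b2 : 12 + 2 * Real.log N ≤ (12 + 2 / (δ / 2)) * (N : ℝ) ^ (δ / 2) := by
        have : 2 * (1 / (δ / 2) * (N : ℝ) ^ (δ / 2)) = 2 / (δ / 2) * (N : ℝ) ^ (δ / 2) := by ring
        nlinarith
      have b3 := mul_le_mul_of_nonneg_left b2 hN0.le
      linarith
    have a3 : 0 ≤ 10 * (N : ℝ) + 2 * q * (1 + Real.log q) := by positivity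
    calc (6 * ((N * N : ℕ) : ℝ) / q + 2) * (10 * N + 2 * q * (1 + Real.log q))
        ≤ (8 * ((N : ℝ) ^ 2 / q)) * (N * ((12 + 2 / (δ / 2)) * (N : ℝ) ^ (δ / 2))) :=
          mul_le_mul a1 a2 a3 (by positivity)
      _ = _ := by
          field_simp
  set Y : ℝ := (N : ℝ) ^ 3 / q with hY
  have hY0 : 0 < Y := by positivity
  have h5 : ∑ g ∈ Icc 1 N, ∑ h ∈ Icc 1 N, Phi N (6 * t * ((g * h : ℕ) : ℝ)) ≤
      D * (8 * (12 + 2 / (δ / 2))) * (N : ℝ) ^ δ * Y := by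
    refine h2.trans ?_
    calc D * (N : ℝ) ^ (δ / 2) * ∑ u ∈ Icc 1 (N * N), Phi N (6 * t * (u : ℝ))
        ≤ D * (N : ℝ) ^ (δ / 2) * (8 * (12 + 2 / (δ / 2)) * (N : ℝ) ^ (δ / 2) * Y) :=
          mul_le_mul_of_nonneg_left h4 (by positivity)
      _ = D * (8 * (12 + 2 / (δ / 2))) * ((N : ℝ) ^ (δ / 2) * (N : ℝ) ^ (δ / 2)) * Y := by ring
      _ = _ := by
          rw [← Real.rpow_add hN0]
          congr 3
          ring
  have hNδ : 1 ≤ (N : ℝ) ^ δ := Real.one_le_rpow hN1 hδ.le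
  have h6 : (4 * (N : ℝ) + 1) * (2 * N) ≤ 10 * ((N : ℝ) ^ δ * Y) := by
    have a1 : (N : ℝ) ^ 2 ≤ Y := by
      rw [hY, le_div_iff₀ hq0]
      nlinarith [sq_nonneg (N : ℝ)]
    have a2 : Y ≤ (N : ℝ) ^ δ * Y := by nlinarith
    nlinarith
  refine h1.trans ?_
  calc ((4 * N : ℕ) : ℝ) * ((4 * N + 1) * (2 * N) + 4 * ∑ g ∈ Icc 1 N, ∑ h ∈ Icc 1 N,
        Phi N (6 * t * ((g * h : ℕ) : ℝ)))
      ≤ ((4 * N : ℕ) : ℝ) * (10 * ((N : ℝ) ^ δ * Y) +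
          4 * (D * (8 * (12 + 2 / (δ / 2))) * (N : ℝ) ^ δ * Y)) := by
        apply mul_le_mul_of_nonneg_left _ (Nat.cast_nonneg _)
        linarith
    _ = 4 * (10 + 4 * (D * (8 * (12 + 2 / (δ / 2))))) * (N : ℝ) ^ (4 + δ) / q := by
        have e2 : (N : ℝ) ^ (4 + δ) = (N : ℝ) ^ 4 * (N : ℝ) ^ δ := by
          rw [Real.rpow_add hN0]
          congr 1
          exact_mod_cast Real.rpow_natCast (N : ℝ) 4
        rw [e2, hY]
        push_cast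
        ring

end Pool.Agent.Helper20_Mont
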