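import Pool.Agent.Helper20_Mont.Fourth

set_option autoImplicit false

/-! Weyl differencing for sums over an interval of integers, every degree. -/

namespace Pool.Agent.Helper20_Mont

open Finset Polynomial Pool.Agent.Helper69_Weyl

/-- total sum over `1 ≤ n ≤ N` -/
noncomputable def TS (N : ℕ) (F : ℤ → ℂ) : ℂ := ∑ n ∈ Icc (1 : ℤ) N, F n

/-- multiplicative difference -/
noncomputable def Df (h : ℤ) (F : ℤ → ℂ) : ℤ → ℂ := fun n => F (n + h) * (starRingEnd ℂ) (F n)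

/-- support in `[1, N]` -/
def Su (N : ℕ) (F : ℤ → ℂ) : Prop := ∀ n, n ∉ Icc (1 : ℤ) N → F n = 0

theorem Su_Df {N : ℕ} {F : ℤ → ℂ} (hF : Su N F) (h : ℤ) : Su N (Df h F) := by
  intro n hn
  unfold Df
  rw [hF n hn, map_zero, mul_zero]

theorem sq_TS {N : ℕ} {F : ℤ → ℂ} (hF : Su N F) :
    TS N F * (starRingEnd ℂ) (TS N F) = ∑ h ∈ Icc (-(N : ℤ)) N, TS N (Df h F) := by
  unfold TS
  rw [map_sum, Finset.mul_sum, Finset.sum_comm]
  apply Finset.sum_congr rfl
  intro n hn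
  rw [shift_sum N n hn, Finset.sum_mul]
  apply Finset.sum_congr rfl
  intro h _
  unfold Df
  by_cases h1 : n + h ∈ Icc (1 : ℤ) N
  · rw [if_pos h1]
  · rw [if_neg h1, hF _ h1]

theorem normsq_TS_le {N : ℕ} {F : ℤ → ℂ} (hF : Su N F) :
    ‖TS N F‖ ^ 2 ≤ ∑ h ∈ Icc (-(N : ℤ)) N, ‖TS N (Df h F)‖ := by
  have h1 : ‖TS N F‖ ^ 2 = ‖TS N F * (starRingEnd ℂ) (TS N F)‖ := by
    rw [norm_mul, RCLike.norm_conj, sq]
  rw [h1, sq_TS hF]
  exact norm_sum_le _ _

/-- iterated absolute sums -/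
noncomputable def Sig (N : ℕ) : ℕ → (ℤ → ℂ) → ℝ
  | 0, F => ‖TS N F‖
  | j + 1, F => ∑ h ∈ Icc (-(N : ℤ)) N, Sig N j (Df h F)

theorem card_Icc_neg (N : ℕ) : (Icc (-(N : ℤ)) N).card = 2 * N + 1 := by
  rw [Int.card_Icc]
  omega

theorem pow_TS_le (N : ℕ) (j : ℕ) : ∀ F : ℤ → ℂ, Su N F →
    ‖TS N F‖ ^ (2 ^ j) ≤ ((2 * N + 1 : ℕ) : ℝ) ^ (2 ^ j - j - 1) * Sig N j F := by
  induction j with
  | zero =>
    intro F _
    simp [Sig]
  | succ j ih =>
    intro F hF
    have hj : j + 1 ≤ 2 ^ j := Nat.lt_two_pow_self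
    have h1 : ‖TS N F‖ ^ (2 ^ (j + 1)) = (‖TS N F‖ ^ 2) ^ (2 ^ j) := by
      rw [← pow_mul, pow_succ, mul_comm]
    rw [h1]
    have h2 : (‖TS N F‖ ^ 2) ^ (2 ^ j) ≤ (∑ h ∈ Icc (-(N : ℤ)) N, ‖TS N (Df h F)‖) ^ (2 ^ j) :=
      pow_le_pow_left₀ (by positivity) (normsq_TS_le hF) _
    obtain ⟨e, he⟩ : ∃ e, 2 ^ j = e + 1 := ⟨2 ^ j - 1, by omega⟩
    have h3 : (∑ h ∈ Icc (-(N : ℤ)) N, ‖TS N (Df h F)‖) ^ (2 ^ j) ≤
        ((2 * N + 1 : ℕ) : ℝ) ^ (2 ^ j - 1) *
          ∑ h ∈ Icc (-(N : ℤ)) N, ‖TS N (Df h F)‖ ^ (2 ^ j) := by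
      have h5 := pow_sum_div_card_le_sum_pow (s := Icc (-(N : ℤ)) N)
        (f := fun h => ‖TS N (Df h F)‖) (fun _ _ => norm_nonneg _) e
      rw [card_Icc_neg, div_le_iff₀ (by positivity)] at h5
      rw [he]
      have : e + 1 - 1 = e := by omega
      rw [this, mul_comm]
      exact h5
    refine h2.trans (h3.trans ?_)
    have h6 : ∑ h ∈ Icc (-(N : ℤ)) N, ‖TS N (Df h F)‖ ^ (2 ^ j) ≤
        ((2 * N + 1 : ℕ) : ℝ) ^ (2 ^ j - j - 1) * Sig N (j + 1) F := by
      unfold Sig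
      rw [Finset.mul_sum]
      exact Finset.sum_le_sum (fun h _ => ih (Df h F) (Su_Df hF h))
    calc ((2 * N + 1 : ℕ) : ℝ) ^ (2 ^ j - 1) * ∑ h ∈ Icc (-(N : ℤ)) N, ‖TS N (Df h F)‖ ^ (2 ^ j)
        ≤ ((2 * N + 1 : ℕ) : ℝ) ^ (2 ^ j - 1) *
          (((2 * N + 1 : ℕ) : ℝ) ^ (2 ^ j - j - 1) * Sig N (j + 1) F) :=
          mul_le_mul_of_nonneg_left h6 (by positivity)
      _ = ((2 * N + 1 : ℕ) : ℝ) ^ (2 ^ (j + 1) - (j + 1) - 1) * Sig N (j + 1) F := by
          rw [← mul_assoc, ← pow_add]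
          congr 2
          rw [pow_succ]
          omega

theorem Sig_nonneg (N j : ℕ) : ∀ F : ℤ → ℂ, 0 ≤ Sig N j F := by
  induction j with
  | zero => intro F; exact norm_nonneg _
  | succ j ih => intro F; exact Finset.sum_nonneg (fun h _ => ih _)

/-- a polynomial phase on an interval -/
noncomputable def Gp (t : ℝ) (a b : ℤ) (P : ℤ[X]) : ℤ → ℂ :=
  fun n => if n ∈ Icc a b then ee (t * ((P.eval n : ℤ) : ℝ)) else 0

theorem Df_Gp (t : ℝ) (a b : ℤ) (P : ℤ[X]) (h : ℤ) :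
    Df h (Gp t a b P) = Gp t (max a (a - h)) (min b (b - h)) (taylor h P - P) := by
  funext n
  unfold Df Gp
  by_cases h1 : n ∈ Icc a b
  · by_cases h2 : n + h ∈ Icc a b
    · have h3 : n ∈ Icc (max a (a - h)) (min b (b - h)) := by
        rw [Finset.mem_Icc] at h1 h2 ⊢
        constructor
        · apply max_le <;> omega
        · apply le_min <;> omega
      rw [if_pos h1, if_pos h2, if_pos h3, conj_ee, ← ee_add]
      congr 1
      rw [Polynomial.eval_sub, Polynomial.taylor_eval]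
      push_cast
      ring
    · have h3 : n ∉ Icc (max a (a - h)) (min b (b - h)) := by
        rw [Finset.mem_Icc, max_le_iff, le_min_iff]
        intro h4
        apply h2
        rw [Finset.mem_Icc]
        omega
      rw [if_neg h2, if_neg h3, zero_mul]
  · have h3 : n ∉ Icc (max a (a - h)) (min b (b - h)) := by
      rw [Finset.mem_Icc, max_le_iff, le_min_iff]
      intro h4
      apply h1
      rw [Finset.mem_Icc]
      omega
    rw [if_neg h1, if_neg h3, map_zero, mul_zero]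

theorem coeff_taylor_top (P : ℤ[X]) (d : ℕ) (hd : P.natDegree ≤ d) (h : ℤ) :
    (taylor h P).coeff d = P.coeff d := by
  rw [Polynomial.taylor_coeff]
  have h1 : (hasseDeriv d P).natDegree < 1 := by
    have := Polynomial.natDegree_hasseDeriv_le P d
    omega
  rw [Polynomial.eval_eq_sum_range' h1, Finset.sum_range_one, Polynomial.hasseDeriv_coeff]
  simp

theorem coeff_taylor_sub (P : ℤ[X]) (d : ℕ) (hd : P.natDegree ≤ d + 1) (h : ℤ) :
    (taylor h P - P).coeff d = (d + 1) * h * P.coeff (d + 1) := by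
  rw [Polynomial.coeff_sub, Polynomial.taylor_coeff]
  have h1 : (hasseDeriv d P).natDegree < 2 := by
    have := Polynomial.natDegree_hasseDeriv_le P d
    omega
  rw [Polynomial.eval_eq_sum_range' h1, Finset.sum_range_succ, Finset.sum_range_one,
    Polynomial.hasseDeriv_coeff, Polynomial.hasseDeriv_coeff]
  have h2 : (0 + d).choose d = 1 := by simp
  have h3 : (1 + d).choose d = d + 1 := by
    rw [add_comm 1 d, Nat.choose_succ_self_right]
  rw [h2, h3, zero_add, add_comm 1 d]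
  push_cast
  ring

theorem natDegree_taylor_sub (P : ℤ[X]) (d : ℕ) (hd : P.natDegree ≤ d + 1) (h : ℤ) :
    (taylor h P - P).natDegree ≤ d := by
  rw [Polynomial.natDegree_le_iff_coeff_eq_zero]
  intro n hn
  rw [Polynomial.coeff_sub]
  by_cases h1 : n = d + 1
  · rw [h1, coeff_taylor_top P (d + 1) hd h, sub_self]
  · have h2 : P.natDegree < n := by omega
    rw [Polynomial.coeff_eq_zero_of_natDegree_lt h2, Polynomial.coeff_eq_zero_of_natDegree_lt, sub_zero]
    rw [Polynomial.natDegree_taylor]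
    exact h2

/-- the bound for the iterated sums -/
noncomputable def Bs (N : ℕ) (t : ℝ) : ℕ → ℤ → ℝ
  | 0, c => Phi N (t * (c : ℝ))
  | j + 1, c => ∑ h ∈ Icc (-(N : ℤ)) N, Bs N t j ((j + 2) * h * c)

theorem Sig_Gp_le (N : ℕ) (t : ℝ) (j : ℕ) : ∀ (a b c : ℤ) (P : ℤ[X]), 1 ≤ a → b ≤ N →
    P.natDegree ≤ j + 1 → P.coeff (j + 1) = c → Sig N j (Gp t a b P) ≤ Bs N t j c := by
  induction j with
  | zero =>
    intro a b c P ha hb hP hc
    unfold Sig Bs TS Gp
    rw [← Finset.sum_filter]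
    have h1 : (Icc (1 : ℤ) N).filter (fun n => n ∈ Icc a b) = Icc a b := by
      ext n
      rw [Finset.mem_filter, Finset.mem_Icc, Finset.mem_Icc]
      constructor
      · exact fun h => h.2
      · intro h
        exact ⟨⟨by omega, by omega⟩, h⟩
    rw [h1]
    have h2 : ∀ n ∈ Icc a b, ee (t * ((P.eval n : ℤ) : ℝ)) =
        ee (t * ((P.coeff 0 : ℤ) : ℝ)) * ee (t * (c : ℝ) * (n : ℝ)) := by
      intro n _
      rw [← ee_add]
      congr 1
      have h3 : P.natDegree < 2 := by omega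
      rw [Polynomial.eval_eq_sum_range' h3, Finset.sum_range_succ, Finset.sum_range_one]
      rw [zero_add] at hc
      rw [hc]
      push_cast
      ring
    rw [Finset.sum_congr rfl h2, ← Finset.mul_sum, norm_mul, norm_ee, one_mul]
    apply norm_geom_int
    omega
  | succ j ih =>
    intro a b c P ha hb hP hc
    unfold Sig Bs
    apply Finset.sum_le_sum
    intro h _
    rw [Df_Gp]
    apply ih
    · exact ha.trans (le_max_left _ _)
    · exact (min_le_left _ _).trans hb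
    · exact natDegree_taylor_sub P (j + 1) hP h
    · rw [coeff_taylor_sub P (j + 1) hP h, hc]
      push_cast
      ring

end Pool.Agent.Helper20_Mont
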