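import Pool.Agent.Helper20_Mont.GenSum

set_option autoImplicit false

/-! Mean values in `ξ` of the Weyl sum of degree `k`, for fixed `t`. -/

namespace Pool.Agent.Helper20_Mont

open Finset Polynomial Pool.Agent.Helper69_Weyl MeasureTheory

/-- the sequence `e(t n^k)` on `[1, N]` -/
noncomputable def F0 (k N : ℕ) (t : ℝ) : ℤ → ℂ := Gp t 1 N (X ^ k)

theorem Su_F0 (k N : ℕ) (t : ℝ) : Su N (F0 k N t) := by
  intro n hn
  unfold F0 Gp
  rw [if_neg hn]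

/-- the correlation coefficients -/
noncomputable def Ac (k N : ℕ) (t : ℝ) (h : ℤ) : ℂ := TS N (Df h (F0 k N t))

theorem W_mul_conj (k N : ℕ) (t ξ : ℝ) :
    W k N t ξ * (starRingEnd ℂ) (W k N t ξ) =
      ∑ h ∈ Icc (-(N : ℤ)) N, ee (ξ * (h : ℝ)) * Ac k N t h := by
  have h0 : W k N t ξ = TS N (fun n => F0 k N t n * ee (ξ * (n : ℝ))) := by
    rw [W_int]
    unfold TS
    apply Finset.sum_congr rfl
    intro n hn
    unfold F0 Gp
    simp only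
    rw [if_pos hn, ← ee_add]
    congr 1
    rw [Polynomial.eval_pow, Polynomial.eval_X]
    push_cast
    ring
  have hSu : Su N (fun n => F0 k N t n * ee (ξ * (n : ℝ))) := by
    intro n hn
    simp only
    rw [Su_F0 k N t n hn, zero_mul]
  rw [h0, sq_TS hSu]
  apply Finset.sum_congr rfl
  intro h _
  unfold Ac TS
  rw [Finset.mul_sum]
  apply Finset.sum_congr rfl
  intro n _
  unfold Df
  rw [map_mul, conj_ee]
  have h1 : ee (ξ * ((n + h : ℤ) : ℝ)) * ee (-(ξ * (n : ℝ))) = ee (ξ * (h : ℝ)) := by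
    rw [← ee_add]
    congr 1
    push_cast
    ring
  rw [← h1]
  ring

/-- the fourth moment -/
noncomputable def MM (k N : ℕ) (t : ℝ) : ℝ := ∑ h ∈ Icc (-(N : ℤ)) N, ‖Ac k N t h‖ ^ 2

theorem MM_nonneg (k N : ℕ) (t : ℝ) : 0 ≤ MM k N t :=
  Finset.sum_nonneg (fun _ _ => by positivity)

theorem grid_four (k N Q : ℕ) (hQ : 2 * N + 1 ≤ Q) (t ξ : ℝ) :
    ∑ j ∈ range Q, ‖W k N t (ξ + (j : ℝ) / Q)‖ ^ 4 = Q * MM k N t := by
  have hQ0 : 0 < Q := by omega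
  have h4 : ∀ ζ : ℝ, ((‖W k N t ζ‖ ^ 4 : ℝ) : ℂ) =
      ∑ h ∈ Icc (-(N : ℤ)) N, ∑ g ∈ Icc (-(N : ℤ)) N,
        (Ac k N t h * (starRingEnd ℂ) (Ac k N t g)) * ee (ζ * ((h - g : ℤ) : ℝ)) := by
    intro ζ
    have h1 : ((‖W k N t ζ‖ ^ 4 : ℝ) : ℂ) =
        (W k N t ζ * (starRingEnd ℂ) (W k N t ζ)) *
          (starRingEnd ℂ) (W k N t ζ * (starRingEnd ℂ) (W k N t ζ)) := by
      have : ((‖W k N t ζ‖ ^ 4 : ℝ) : ℂ) = ((‖W k N t ζ‖ : ℂ) ^ 2) * ((‖W k N t ζ‖ : ℂ) ^ 2) := by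
        push_cast
        ring
      rw [this, ← Complex.mul_conj', map_mul, Complex.conj_conj]
      ring
    rw [h1, W_mul_conj, map_sum, Finset.sum_mul_sum]
    apply Finset.sum_congr rfl
    intro h _
    apply Finset.sum_congr rfl
    intro g _
    rw [map_mul, conj_ee]
    have h2 : ee (ζ * (h : ℝ)) * ee (-(ζ * (g : ℝ))) = ee (ζ * ((h - g : ℤ) : ℝ)) := by
      rw [← ee_add]
      congr 1
      push_cast
      ring
    rw [← h2]
    ring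
  have h5 : ((∑ j ∈ range Q, ‖W k N t (ξ + (j : ℝ) / Q)‖ ^ 4 : ℝ) : ℂ) =
      ((Q * MM k N t : ℝ) : ℂ) := by
    rw [Complex.ofReal_sum]
    simp only [h4]
    rw [Finset.sum_comm]
    unfold MM
    rw [Complex.ofReal_mul, Complex.ofReal_sum, Finset.mul_sum]
    apply Finset.sum_congr rfl
    intro h hh
    rw [Finset.sum_comm]
    rw [Finset.sum_eq_single h]
    · have h6 : ∀ j ∈ range Q, Ac k N t h * (starRingEnd ℂ) (Ac k N t h) *
          ee ((ξ + (j : ℝ) / Q) * ((h - h : ℤ) : ℝ)) =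
          Ac k N t h * (starRingEnd ℂ) (Ac k N t h) := by
        intro j _
        rw [sub_self, Int.cast_zero, mul_zero, ee_zero, mul_one]
      rw [Finset.sum_congr rfl h6, Finset.sum_const, card_range, nsmul_eq_mul,
        Complex.mul_conj']
      push_cast
      ring
    · intro g hg hgh
      rw [← Finset.mul_sum]
      have h6 : ∀ j ∈ range Q, ee ((ξ + (j : ℝ) / Q) * ((h - g : ℤ) : ℝ)) =
          ee (ξ * ((h - g : ℤ) : ℝ)) * ee (((j : ℝ) / Q) * ((h - g : ℤ) : ℝ)) := by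
        intro j _
        rw [← ee_add]
        congr 1
        ring
      rw [Finset.sum_congr rfl h6, ← Finset.mul_sum, sum_ee_div Q hQ0]
      have hnd : ¬ (Q : ℤ) ∣ (h - g) := by
        intro hdv
        rw [Finset.mem_Icc] at hh hg
        have h7 : |(h - g)| < Q := by
          rw [abs_lt]
          constructor <;> omega
        have := Int.eq_zero_of_abs_lt_dvd hdv h7
        omega
      rw [if_neg hnd, mul_zero, mul_zero]
    · intro hn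
      exact absurd hh hn
  exact_mod_cast h5

theorem sup_four (k N : ℕ) (t ξ : ℝ) :
    ‖W k N t ξ‖ ^ 4 ≤ ((2 * N + 1 : ℕ) : ℝ) * MM k N t := by
  have h1 := grid_four k N (2 * N + 1) le_rfl t ξ
  rw [← h1]
  have h2 := Finset.single_le_sum (f := fun j : ℕ => ‖W k N t (ξ + (j : ℝ) / ((2 * N + 1 : ℕ) : ℝ))‖ ^ 4)
    (s := range (2 * N + 1)) (fun _ _ => by positivity) (Finset.mem_range.2 (by omega : 0 < 2 * N + 1))
  simp only [Nat.cast_zero, zero_div, add_zero] at h2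
  exact h2

theorem continuous_W' (k N : ℕ) (t : ℝ) : Continuous (fun ξ => W k N t ξ) := by
  unfold W ee
  fun_prop

theorem integral_four (k N : ℕ) (t : ℝ) :
    ∫ ξ in (0 : ℝ)..1, ‖W k N t ξ‖ ^ 4 = MM k N t := by
  obtain ⟨Q, hQ⟩ : ∃ Q : ℕ, Q = 2 * N + 1 := ⟨_, rfl⟩
  have hQ0 : (0 : ℝ) < Q := by
    have : 0 < Q := by omega
    exact_mod_cast this
  have hcont : Continuous (fun ξ : ℝ => ‖W k N t ξ‖ ^ 4) := (continuous_W' k N t).norm.pow 4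
  have hint : ∀ a b : ℝ, IntervalIntegrable (fun ξ : ℝ => ‖W k N t ξ‖ ^ 4) volume a b :=
    fun a b => hcont.intervalIntegrable a b
  have hsum := intervalIntegral.sum_integral_adjacent_intervals
    (f := fun ξ : ℝ => ‖W k N t ξ‖ ^ 4) (μ := volume) (a := fun j : ℕ => (j : ℝ) / Q) (n := Q)
    (fun j _ => hint _ _)
  have e0 : ((0 : ℕ) : ℝ) / (Q : ℝ) = 0 := by simp
  have e1 : ((Q : ℕ) : ℝ) / (Q : ℝ) = 1 := div_self hQ0.ne'
  simp only [e0, e1] at hsum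
  rw [← hsum]
  have h1 : ∀ j ∈ range Q, ∫ ξ in ((j : ℝ) / Q)..(((j + 1 : ℕ) : ℝ) / Q), ‖W k N t ξ‖ ^ 4 =
      ∫ ξ in (0 : ℝ)..(1 / Q), ‖W k N t (ξ + (j : ℝ) / Q)‖ ^ 4 := by
    intro j _
    rw [intervalIntegral.integral_comp_add_right (fun ξ => ‖W k N t ξ‖ ^ 4) ((j : ℝ) / Q)]
    congr 1
    · rw [zero_add]
    · push_cast
      ring
  rw [Finset.sum_congr rfl h1, ← intervalIntegral.integral_finsetSum]
  · have h2 : ∀ ξ : ℝ, ∑ j ∈ range Q, ‖W k N t (ξ + (j : ℝ) / Q)‖ ^ 4 = Q * MM k N t :=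
      fun ξ => grid_four k N Q hQ.ge t ξ
    simp only [h2]
    rw [intervalIntegral.integral_const, smul_eq_mul]
    field_simp
    ring
  · intro j _
    exact (hcont.comp (continuous_id.add continuous_const)).intervalIntegrable _ _

/-- the bound for the fourth moment -/
theorem MM_pow_le (k : ℕ) (hk : 3 ≤ k) (N : ℕ) (t : ℝ) :
    (MM k N t) ^ (2 ^ (k - 3)) ≤ ((2 * N + 1 : ℕ) : ℝ) ^ (3 * 2 ^ (k - 3) - k) *
      Vs N t (k - 1) ((k.factorial : ℕ) : ℤ) := by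
  obtain ⟨j, rfl⟩ : ∃ j, k = j + 3 := ⟨k - 3, by omega⟩
  have e1 : j + 3 - 3 = j := by omega
  have e2 : j + 3 - 1 = j + 2 := by omega
  rw [e1, e2]
  obtain ⟨e, he⟩ : ∃ e, 2 ^ j = e + 1 := ⟨2 ^ j - 1, by have := Nat.one_le_two_pow (n := j); omega⟩
  have h5 := pow_sum_div_card_le_sum_pow (s := Icc (-(N : ℤ)) N)
        (f := fun h => ‖Ac (j + 3) N t h‖ ^ 2) (fun _ _ => by positivity) e
  rw [card_Icc_neg, div_le_iff₀ (by positivity), ← he] at h5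
  have h6 : ∀ h ∈ Icc (-(N : ℤ)) N, (‖Ac (j + 3) N t h‖ ^ 2) ^ (2 ^ j) ≤
      ((2 * N + 1 : ℕ) : ℝ) ^ (2 ^ (j + 1) - (j + 1) - 1) * Sig N (j + 1) (Df h (F0 (j + 3) N t)) := by
    intro h _
    have h7 := pow_TS_le N (j + 1) (Df h (F0 (j + 3) N t)) (Su_Df (Su_F0 _ N t) h)
    have h8 : (‖Ac (j + 3) N t h‖ ^ 2) ^ (2 ^ j) = ‖Ac (j + 3) N t h‖ ^ (2 ^ (j + 1)) := by
      rw [← pow_mul, pow_succ 2 j, mul_comm 2 (2 ^ j)]
    rw [h8]
    exact h7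
  have h7 := Finset.sum_le_sum h6
  rw [← Finset.mul_sum] at h7
  have h8 : ∑ h ∈ Icc (-(N : ℤ)) N, Sig N (j + 1) (Df h (F0 (j + 3) N t)) =
      Sig N (j + 2) (F0 (j + 3) N t) := rfl
  rw [h8] at h7
  have h9 : Sig N (j + 2) (F0 (j + 3) N t) ≤ Vs N t (j + 2) (((j + 3).factorial : ℕ) : ℤ) := by
    have h10 := Sig_Gp_le N t (j + 2) 1 N 1 (X ^ (j + 3)) le_rfl le_rfl (by
      rw [Polynomial.natDegree_X_pow]) (by
      rw [Polynomial.coeff_X_pow]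
      simp)
    rw [Bs_eq_Vs, mul_one] at h10
    exact h10
  have hj : j + 2 ≤ 2 ^ (j + 1) := by
    have := Nat.lt_two_pow_self (n := j + 1)
    omega
  have hpow : 2 ^ (j + 1) = 2 * 2 ^ j := by
    rw [pow_succ]
    ring
  calc (MM (j + 3) N t) ^ (2 ^ j)
      ≤ (∑ h ∈ Icc (-(N : ℤ)) N, (‖Ac (j + 3) N t h‖ ^ 2) ^ (2 ^ j)) * ((2 * N + 1 : ℕ) : ℝ) ^ e := h5
    _ ≤ (((2 * N + 1 : ℕ) : ℝ) ^ (2 ^ (j + 1) - (j + 1) - 1) * Sig N (j + 2) (F0 (j + 3) N t)) *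
          ((2 * N + 1 : ℕ) : ℝ) ^ e := mul_le_mul_of_nonneg_right h7 (by positivity)
    _ ≤ (((2 * N + 1 : ℕ) : ℝ) ^ (2 ^ (j + 1) - (j + 1) - 1) *
          Vs N t (j + 2) (((j + 3).factorial : ℕ) : ℤ)) * ((2 * N + 1 : ℕ) : ℝ) ^ e := by
        apply mul_le_mul_of_nonneg_right _ (by positivity)
        exact mul_le_mul_of_nonneg_left h9 (by positivity)
    _ = (((2 * N + 1 : ℕ) : ℝ) ^ (2 ^ (j + 1) - (j + 1) - 1) * ((2 * N + 1 : ℕ) : ℝ) ^ e) *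
          Vs N t (j + 2) (((j + 3).factorial : ℕ) : ℤ) := by ring
    _ = _ := by
        rw [← pow_add]
        congr 2
        omega

theorem MM_le (k : ℕ) (hk : 3 ≤ k) (ε : ℝ) (hε : 0 < ε) : ∃ C : ℝ, 0 < C ∧
    ∀ N : ℕ, 1 ≤ N → ∀ (t : ℝ) (a : ℤ) (q : ℕ),
    1 ≤ q → q ≤ N → IsCoprime a (q : ℤ) → |t - (a : ℝ) / q| ≤ 1 / (q : ℝ) ^ 2 →
    MM k N t ≤ C * (N : ℝ) ^ (3 + 4 * ε) * (q : ℝ) ^ (-(1 / (2 : ℝ) ^ (k - 3))) := by
  obtain ⟨m, hm⟩ : ∃ m : ℕ, m = 2 ^ (k - 3) := ⟨_, rfl⟩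
  have hm1 : 1 ≤ m := by
    rw [hm]
    exact Nat.one_le_two_pow
  have hm0 : (0 : ℝ) < m := by exact_mod_cast hm1
  have hk3 : k ≤ 3 * m := by
    have h1 : k - 3 < 2 ^ (k - 3) := Nat.lt_two_pow_self
    omega
  obtain ⟨C, hC0, hC⟩ := Vs_bound k (by omega) (4 * ε * m) (by positivity)
  obtain ⟨C', hC'⟩ : ∃ C' : ℝ, C' = 3 ^ (3 * m - k) * C + 1 := ⟨_, rfl⟩
  have hC'0 : 0 < C' := by
    rw [hC']
    positivity
  refine ⟨C' ^ (1 / (m : ℝ)), by positivity, ?_⟩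
  intro N hN t a q hq hqN hcop happ
  have hN0 : (0 : ℝ) < N := by exact_mod_cast hN
  have hN1 : (1 : ℝ) ≤ N := by exact_mod_cast hN
  have hq0 : (0 : ℝ) < q := by exact_mod_cast hq
  have h1 := hC N hN t a q hq hqN hcop happ
  have h2 := MM_pow_le k hk N t
  rw [← hm] at h2
  have h3 : ((2 * N + 1 : ℕ) : ℝ) ^ (3 * m - k) ≤ 3 ^ (3 * m - k) * (N : ℝ) ^ (3 * m - k) := by
    rw [← mul_pow]
    apply pow_le_pow_left₀ (by positivity)
    push_cast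
    linarith
  have h4 : (MM k N t) ^ m ≤ C' * (N : ℝ) ^ (3 * m) * (N : ℝ) ^ (4 * ε * m) / q := by
    have hX0 : 0 ≤ C * (N : ℝ) ^ (4 * ε * m) * ((N : ℝ) ^ k / q) := by positivity
    calc (MM k N t) ^ m ≤ ((2 * N + 1 : ℕ) : ℝ) ^ (3 * m - k) *
          Vs N t (k - 1) ((k.factorial : ℕ) : ℤ) := h2
      _ ≤ ((2 * N + 1 : ℕ) : ℝ) ^ (3 * m - k) * (C * (N : ℝ) ^ (4 * ε * m) * ((N : ℝ) ^ k / q)) :=
          mul_le_mul_of_nonneg_left h1 (by positivity)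
      _ ≤ (3 ^ (3 * m - k) * (N : ℝ) ^ (3 * m - k)) *
          (C * (N : ℝ) ^ (4 * ε * m) * ((N : ℝ) ^ k / q)) := mul_le_mul_of_nonneg_right h3 hX0
      _ = (3 ^ (3 * m - k) * C) * (((N : ℝ) ^ (3 * m - k) * (N : ℝ) ^ k) *
          (N : ℝ) ^ (4 * ε * m) / q) := by ring
      _ = (3 ^ (3 * m - k) * C) * ((N : ℝ) ^ (3 * m) * (N : ℝ) ^ (4 * ε * m) / q) := by
          rw [← pow_add]
          have : 3 * m - k + k = 3 * m := by omega
          rw [this]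
      _ ≤ C' * ((N : ℝ) ^ (3 * m) * (N : ℝ) ^ (4 * ε * m) / q) := by
          apply mul_le_mul_of_nonneg_right _ (by positivity)
          rw [hC']
          linarith
      _ = _ := by ring
  have h5 : MM k N t = ((MM k N t) ^ m) ^ (1 / (m : ℝ)) := by
    rw [← Real.rpow_natCast, ← Real.rpow_mul (MM_nonneg k N t)]
    rw [mul_one_div, div_self hm0.ne', Real.rpow_one]
  rw [h5]
  have h6 : C' * (N : ℝ) ^ (3 * m) * (N : ℝ) ^ (4 * ε * m) / q =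
      C' * ((N : ℝ) ^ (3 + 4 * ε)) ^ (m : ℝ) * (q : ℝ) ^ (-1 : ℝ) := by
    rw [← Real.rpow_mul hN0.le, Real.rpow_neg_one, ← Real.rpow_natCast (N : ℝ) (3 * m), mul_assoc C',
      ← Real.rpow_add hN0, div_eq_mul_inv]
    congr 3
    push_cast
    ring
  rw [h6] at h4
  calc ((MM k N t) ^ m) ^ (1 / (m : ℝ)) ≤
        (C' * ((N : ℝ) ^ (3 + 4 * ε)) ^ (m : ℝ) * (q : ℝ) ^ (-1 : ℝ)) ^ (1 / (m : ℝ)) :=
        Real.rpow_le_rpow (by have := MM_nonneg k N t; positivity) h4 (by positivity)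
    _ = C' ^ (1 / (m : ℝ)) * (N : ℝ) ^ (3 + 4 * ε) * (q : ℝ) ^ (-(1 / (2 : ℝ) ^ (k - 3))) := by
        rw [Real.mul_rpow (by positivity) (by positivity), Real.mul_rpow (by positivity) (by positivity),
          ← Real.rpow_mul (by positivity), ← Real.rpow_mul (by positivity), mul_one_div,
          div_self hm0.ne', mul_one, ← Real.rpow_mul hq0.le]
        congr 2
        rw [hm]
        push_cast
        ring

/-- The moment of any order `p ≥ 4`. -/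
theorem mean_general (k : ℕ) (hk : 3 ≤ k) (p : ℝ) (hp4 : 4 ≤ p) (ε : ℝ) (hε : 0 < ε) :
    ∃ C : ℝ, 0 < C ∧ ∀ N : ℕ, 1 ≤ N → ∀ (t : ℝ) (a : ℤ) (q : ℕ),
    1 ≤ q → q ≤ N → IsCoprime a (q : ℤ) → |t - (a : ℝ) / q| ≤ 1 / (q : ℝ) ^ 2 →
    (∫ ξ in (0 : ℝ)..1, ‖W k N t ξ‖ ^ p) ^ (1 / p) ≤
      C * (N : ℝ) ^ (1 + ε) * (q : ℝ) ^ (-(1 / 2 ^ (k - 1) + 1 / p)) := by
  obtain ⟨C1, hC10, hC1⟩ := MM_le k hk ε hε
  obtain ⟨Z, hZ⟩ : ∃ Z : ℝ, Z = 2 ^ (k - 1) := ⟨_, rfl⟩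
  have hp0 : 0 < p := by linarith
  have hm4 : 1 / (2 : ℝ) ^ (k - 3) = 4 * (1 / Z) := by
    rw [hZ]
    have h1 : k - 1 = (k - 3) + 2 := by omega
    rw [h1, pow_add]
    field_simp
    norm_num
  refine ⟨3 ^ (1 / 4 - 1 / p) * C1 ^ ((1 : ℝ) / 4), by positivity, ?_⟩
  intro N hN t a q hq hqN hcop happ
  have hN0 : (0 : ℝ) < N := by exact_mod_cast hN
  have hN1 : (1 : ℝ) ≤ N := by exact_mod_cast hN
  have hq0 : (0 : ℝ) < q := by exact_mod_cast hq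
  have hqN' : (q : ℝ) ≤ N := by exact_mod_cast hqN
  have h1 := hC1 N hN t a q hq hqN hcop happ
  obtain ⟨B, hB⟩ : ∃ B : ℝ, B = C1 * (N : ℝ) ^ (3 + 4 * ε) * (q : ℝ) ^ (-(1 / (2 : ℝ) ^ (k - 3))) :=
    ⟨_, rfl⟩
  rw [← hB] at h1
  have hB0 : 0 < B := by
    rw [hB]
    positivity
  have hsup : ∀ ξ : ℝ, ‖W k N t ξ‖ ^ (4 : ℝ) ≤ 3 * N * B := by
    intro ξ
    have h2 := sup_four k N t ξ
    have h3 : ((2 * N + 1 : ℕ) : ℝ) * MM k N t ≤ 3 * N * B := by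
      apply mul_le_mul _ h1 (MM_nonneg k N t) (by positivity)
      push_cast
      linarith
    have h4 : ‖W k N t ξ‖ ^ (4 : ℝ) = ‖W k N t ξ‖ ^ 4 := by
      exact_mod_cast Real.rpow_natCast ‖W k N t ξ‖ 4
    rw [h4]
    exact h2.trans h3
  have hpt : ∀ ξ : ℝ, ‖W k N t ξ‖ ^ p ≤ (3 * N * B) ^ ((p - 4) / 4) * ‖W k N t ξ‖ ^ 4 := by
    intro ξ
    have h2 : ‖W k N t ξ‖ ^ p = (‖W k N t ξ‖ ^ (4 : ℝ)) ^ ((p - 4) / 4) * ‖W k N t ξ‖ ^ 4 := by
      have h4 : ‖W k N t ξ‖ ^ (4 : ℝ) = ‖W k N t ξ‖ ^ 4 := by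
        exact_mod_cast Real.rpow_natCast ‖W k N t ξ‖ 4
      rw [← h4, ← Real.rpow_mul (norm_nonneg _), ← Real.rpow_add_of_nonneg (norm_nonneg _)
        (by linarith) (by norm_num)]
      congr 1
      ring
    rw [h2]
    apply mul_le_mul_of_nonneg_right _ (by positivity)
    exact Real.rpow_le_rpow (by positivity) (hsup ξ) (by linarith)
  have hcontp : Continuous (fun ξ : ℝ => ‖W k N t ξ‖ ^ p) :=
    (continuous_W' k N t).norm.rpow_const (fun _ => Or.inr hp0.le)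
  have hcont4 : Continuous (fun ξ : ℝ => (3 * N * B) ^ ((p - 4) / 4) * ‖W k N t ξ‖ ^ 4) :=
    continuous_const.mul ((continuous_W' k N t).norm.pow 4)
  have hI : ∫ ξ in (0 : ℝ)..1, ‖W k N t ξ‖ ^ p ≤ (3 * N * B) ^ ((p - 4) / 4) * B := by
    have h2 := intervalIntegral.integral_mono_on (μ := volume) (zero_le_one' ℝ)
      (hcontp.intervalIntegrable 0 1) (hcont4.intervalIntegrable 0 1) (fun ξ _ => hpt ξ)
    refine h2.trans ?_
    rw [intervalIntegral.integral_const_mul, integral_four]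
    exact mul_le_mul_of_nonneg_left h1 (by positivity)
  have hI0 : 0 ≤ ∫ ξ in (0 : ℝ)..1, ‖W k N t ξ‖ ^ p :=
    intervalIntegral.integral_nonneg (by norm_num) (fun _ _ => by positivity)
  have hp1 : 0 ≤ 1 / p := by positivity
  have e1 : ((3 * N * B) ^ ((p - 4) / 4) * B) ^ (1 / p) =
      (3 * N) ^ (1 / 4 - 1 / p) * B ^ ((1 : ℝ) / 4) := by
    rw [Real.mul_rpow (by positivity) hB0.le, ← Real.rpow_mul (by positivity),
      Real.mul_rpow (by positivity) hB0.le, mul_assoc, ← Real.rpow_add hB0]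
    congr 2
    · field_simp
    · field_simp
      ring
  have e2 : B ^ ((1 : ℝ) / 4) = C1 ^ ((1 : ℝ) / 4) * (N : ℝ) ^ (3 / 4 + ε) * (q : ℝ) ^ (-(1 / Z)) := by
    rw [hB, Real.mul_rpow (by positivity) (by positivity), Real.mul_rpow (by positivity) (by positivity),
      ← Real.rpow_mul hN0.le, ← Real.rpow_mul hq0.le, hm4]
    congr 2
    · congr 1
      ring
    · ring
  have e3 : (3 * (N : ℝ)) ^ (1 / 4 - 1 / p) = 3 ^ (1 / 4 - 1 / p) * (N : ℝ) ^ (1 / 4 - 1 / p) :=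
    Real.mul_rpow (by norm_num) hN0.le
  calc (∫ ξ in (0 : ℝ)..1, ‖W k N t ξ‖ ^ p) ^ (1 / p)
      ≤ ((3 * N * B) ^ ((p - 4) / 4) * B) ^ (1 / p) := Real.rpow_le_rpow hI0 hI hp1
    _ = (3 ^ (1 / 4 - 1 / p) * C1 ^ ((1 : ℝ) / 4)) *
          (((N : ℝ) ^ (1 / 4 - 1 / p) * (N : ℝ) ^ (3 / 4 + ε)) * (q : ℝ) ^ (-(1 / Z))) := by
        rw [e1, e2, e3]
        ring
    _ = (3 ^ (1 / 4 - 1 / p) * C1 ^ ((1 : ℝ) / 4)) *
          ((N : ℝ) ^ (1 + ε) * ((N : ℝ) ^ (-(1 / p)) * (q : ℝ) ^ (-(1 / Z)))) := by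
        rw [← Real.rpow_add hN0]
        have : (1 : ℝ) / 4 - 1 / p + (3 / 4 + ε) = (1 + ε) + -(1 / p) := by ring
        rw [this, Real.rpow_add hN0]
        ring
    _ ≤ (3 ^ (1 / 4 - 1 / p) * C1 ^ ((1 : ℝ) / 4)) *
          ((N : ℝ) ^ (1 + ε) * ((q : ℝ) ^ (-(1 / p)) * (q : ℝ) ^ (-(1 / Z)))) := by
        apply mul_le_mul_of_nonneg_left _ (by positivity)
        apply mul_le_mul_of_nonneg_left _ (by positivity)
        apply mul_le_mul_of_nonneg_right _ (by positivity)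
        exact Real.rpow_le_rpow_of_nonpos hq0 hqN' (by linarith)
    _ = _ := by
        rw [← Real.rpow_add hq0, hZ]
        have : -(1 / p) + -(1 / (2 : ℝ) ^ (k - 1)) = -(1 / 2 ^ (k - 1) + 1 / p) := by ring
        rw [this]
        ring

/-- the exponent for which the bound has the quality of the conjecture -/
theorem exponent_pk (k : ℕ) (hk : 3 ≤ k) :
    4 ≤ (k : ℝ) * 2 ^ (k - 1) / (2 ^ (k - 1) - k) ∧
    1 / 2 ^ (k - 1) + 1 / ((k : ℝ) * 2 ^ (k - 1) / (2 ^ (k - 1) - k)) = 1 / (k : ℝ) := by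
  have hkk : k < 2 ^ (k - 1) := by
    obtain ⟨j, rfl⟩ : ∃ j, k = j + 3 := ⟨k - 3, by omega⟩
    have h1 : j < 2 ^ j := Nat.lt_two_pow_self
    have h2 : j + 3 - 1 = j + 2 := by omega
    rw [h2, pow_add]
    omega
  have hkk' : (k : ℝ) < 2 ^ (k - 1) := by exact_mod_cast hkk
  have hk0 : (0 : ℝ) < k := by
    have : 0 < k := by omega
    exact_mod_cast this
  obtain ⟨Z, hZ⟩ : ∃ Z : ℝ, Z = 2 ^ (k - 1) := ⟨_, rfl⟩
  rw [← hZ] at hkk' ⊢
  have hZ0 : 0 < Z := by linarith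
  constructor
  · rw [le_div_iff₀ (by linarith)]
    by_cases h4 : 4 ≤ k
    · have : (4 : ℝ) ≤ k := by exact_mod_cast h4
      nlinarith
    · have h5 : k = 3 := by omega
      rw [h5] at hZ ⊢
      norm_num at hZ ⊢
      rw [hZ]
      norm_num
  · have h1 : Z - k ≠ 0 := by linarith
    field_simp
    ring

end Pool.Agent.Helper20_Mont
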