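import Pool.Agent.Helper20_Mont.GenDiff

set_option autoImplicit false

/-! The sums of reciprocals of distances which appear after `j` differencing steps. -/

namespace Pool.Agent.Helper20_Mont

open Finset Pool.Agent.Helper69_Weyl

/-- symmetric multiple sum -/
noncomputable def Vs (N : ℕ) (t : ℝ) : ℕ → ℤ → ℝ
  | 0, c => Phi N (t * (c : ℝ))
  | j + 1, c => ∑ h ∈ Icc (-(N : ℤ)) N, Vs N t j (c * h)

theorem Bs_eq_Vs (N : ℕ) (t : ℝ) (j : ℕ) : ∀ c : ℤ,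
    Bs N t j c = Vs N t j (((j + 1).factorial : ℤ) * c) := by
  induction j with
  | zero =>
    intro c
    unfold Bs Vs
    simp
  | succ j ih =>
    intro c
    unfold Bs Vs
    apply Finset.sum_congr rfl
    intro h _
    rw [ih]
    congr 1
    rw [Nat.factorial_succ (j + 1)]
    push_cast
    ring

theorem Vs_neg (N : ℕ) (t : ℝ) (j : ℕ) : ∀ c : ℤ, Vs N t j (-c) = Vs N t j c := by
  induction j with
  | zero =>
    intro c
    unfold Vs
    have : t * ((-c : ℤ) : ℝ) = -(t * (c : ℝ)) := by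
      push_cast
      ring
    rw [this, Phi_neg]
  | succ j ih =>
    intro c
    unfold Vs
    apply Finset.sum_congr rfl
    intro h _
    rw [neg_mul, ih]

theorem Vs_zero (N : ℕ) (t : ℝ) (j : ℕ) : Vs N t j 0 = ((2 * N + 1 : ℕ) : ℝ) ^ j * (2 * N) := by
  induction j with
  | zero =>
    unfold Vs
    simp only [Int.cast_zero, mul_zero]
    rw [Phi_zero]
    simp
  | succ j ih =>
    unfold Vs
    simp only [zero_mul]
    rw [Finset.sum_const, card_Icc_neg, ih, nsmul_eq_mul]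
    ring

/-- one sided multiple sum -/
noncomputable def Us (N : ℕ) (t : ℝ) : ℕ → ℕ → ℝ
  | 0, c => Phi N (t * (c : ℝ))
  | j + 1, c => ∑ h ∈ Icc 1 N, Us N t j (c * h)

theorem Vs_le_Us (N : ℕ) (t : ℝ) (j : ℕ) : ∀ c : ℕ,
    Vs N t j (c : ℤ) ≤ 2 ^ j * Us N t j c + j * ((2 * N + 1 : ℕ) : ℝ) ^ j := by
  induction j with
  | zero =>
    intro c
    unfold Vs Us
    simp
  | succ j ih =>
    intro c
    unfold Vs Us
    rw [sum_sym (fun h => Vs N t j ((c : ℤ) * h)) (fun h => by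
      rw [mul_neg, Vs_neg])]
    rw [mul_zero, Vs_zero]
    have h1 : ∀ h ∈ Icc 1 N, Vs N t j ((c : ℤ) * ((h : ℕ) : ℤ)) ≤
        2 ^ j * Us N t j (c * h) + j * ((2 * N + 1 : ℕ) : ℝ) ^ j := by
      intro h _
      have := ih (c * h)
      rw [Nat.cast_mul] at this
      exact this
    have h2 := Finset.sum_le_sum h1
    rw [Finset.sum_add_distrib, ← Finset.mul_sum, Finset.sum_const, Nat.card_Icc, nsmul_eq_mul] at h2
    have h3 : N + 1 - 1 = N := by omega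
    rw [h3] at h2
    obtain ⟨Z, hZ⟩ : ∃ Z : ℝ, Z = ((2 * N + 1 : ℕ) : ℝ) ^ j := ⟨_, rfl⟩
    have hZ0 : 0 ≤ Z := by
      rw [hZ]
      positivity
    rw [pow_succ ((2 * N + 1 : ℕ) : ℝ) j]
    rw [← hZ] at h2 ⊢
    have hN : (0 : ℝ) ≤ N := Nat.cast_nonneg N
    have h4 : Z * (2 * N) + 2 * ((N : ℝ) * (j * Z)) ≤ (j + 1) * (Z * (2 * N + 1)) := by
      have hj : (0 : ℝ) ≤ j := Nat.cast_nonneg j
      have : 0 ≤ (j + 1) * Z := by positivity
      nlinarith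
    have h5 : (2 : ℝ) ^ (j + 1) * ∑ h ∈ Icc 1 N, Us N t j (c * h) =
        2 * (2 ^ j * ∑ h ∈ Icc 1 N, Us N t j (c * h)) := by
      rw [pow_succ]
      ring
    rw [h5]
    push_cast
    linarith

theorem Us_nonneg (N : ℕ) (t : ℝ) (j : ℕ) : ∀ c : ℕ, 0 ≤ Us N t j c := by
  induction j with
  | zero => intro c; exact Phi_nonneg _ (Nat.cast_nonneg N) _
  | succ j ih => intro c; exact Finset.sum_nonneg (fun h _ => ih _)

/-- collecting products -/
theorem prod_sum_le' (N M : ℕ) (f : ℕ → ℝ) (hf : ∀ u, 0 ≤ f u) (D : ℝ)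
    (hD : ∀ u ∈ Icc 1 (N * M), ((u.divisors.card : ℕ) : ℝ) ≤ D) :
    ∑ g ∈ Icc 1 N, ∑ h ∈ Icc 1 M, f (g * h) ≤ D * ∑ u ∈ Icc 1 (N * M), f u := by
  classical
  rw [← Finset.sum_product']
  have hmaps : ∀ p ∈ Icc 1 N ×ˢ Icc 1 M, p.1 * p.2 ∈ Icc 1 (N * M) := by
    intro p hp
    rw [Finset.mem_product, Finset.mem_Icc, Finset.mem_Icc] at hp
    rw [Finset.mem_Icc]
    exact ⟨Nat.mul_pos (by omega) (by omega), Nat.mul_le_mul hp.1.2 hp.2.2⟩
  rw [← Finset.sum_fiberwise_of_maps_to hmaps, Finset.mul_sum]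
  apply Finset.sum_le_sum
  intro u hu
  have h1 : ∑ p ∈ (Icc 1 N ×ˢ Icc 1 M).filter (fun p => p.1 * p.2 = u), f (p.1 * p.2) =
      (((Icc 1 N ×ˢ Icc 1 M).filter (fun p => p.1 * p.2 = u)).card : ℝ) * f u := by
    rw [← nsmul_eq_mul, ← Finset.sum_const]
    apply Finset.sum_congr rfl
    intro p hp
    rw [(Finset.mem_filter.1 hp).2]
  rw [h1]
  apply mul_le_mul_of_nonneg_right _ (hf u)
  refine le_trans ?_ (hD u hu)
  have h2 : ((Icc 1 N ×ˢ Icc 1 M).filter (fun p => p.1 * p.2 = u)).card ≤ u.divisors.card := by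
    have hu0 : u ≠ 0 := by
      have := (Finset.mem_Icc.1 hu).1
      omega
    apply Finset.card_le_card_of_injOn (fun p => p.1)
    · intro p hp
      rw [Finset.mem_coe, Finset.mem_filter] at hp
      rw [Finset.mem_coe, Nat.mem_divisors]
      exact ⟨⟨p.2, hp.2.symm⟩, hu0⟩
    · intro p hp p' hp' hpp
      rw [Finset.mem_coe, Finset.mem_filter, Finset.mem_product, Finset.mem_Icc] at hp hp'
      have h5 : p.1 = p'.1 := hpp
      have h6 : p.1 * p.2 = p.1 * p'.2 := by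
        rw [hp.2]
        nth_rewrite 1 [← hp'.2]
        rw [h5]
      have h7 := Nat.eq_of_mul_eq_mul_left (by omega : 0 < p.1) h6
      exact Prod.ext h5 h7
  exact_mod_cast h2

theorem Us_le (N : ℕ) (hN : 1 ≤ N) (t : ℝ) (J : ℕ) (D : ℝ) (hD0 : 0 ≤ D)
    (hD : ∀ u ∈ Icc 1 (N ^ J), ((u.divisors.card : ℕ) : ℝ) ≤ D) (j : ℕ) : j + 1 ≤ J → ∀ c : ℕ,
    Us N t (j + 1) c ≤ D ^ j * ∑ u ∈ Icc 1 (N ^ (j + 1)), Phi N (t * ((c * u : ℕ) : ℝ)) := by
  induction j with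
  | zero =>
    intro _ c
    unfold Us
    rw [pow_zero, one_mul, zero_add, pow_one]
    unfold Us
    exact le_refl _
  | succ j ih =>
    intro hj c
    have h1 : Us N t (j + 1 + 1) c = ∑ h ∈ Icc 1 N, Us N t (j + 1) (c * h) := rfl
    rw [h1]
    have h2 : ∀ h ∈ Icc 1 N, Us N t (j + 1) (c * h) ≤
        D ^ j * ∑ u ∈ Icc 1 (N ^ (j + 1)), Phi N (t * ((c * (h * u) : ℕ) : ℝ)) := by
      intro h _
      have := ih (by omega) (c * h)
      simp only [mul_assoc] at this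
      exact this
    refine (Finset.sum_le_sum h2).trans ?_
    rw [← Finset.mul_sum, pow_succ D j, mul_assoc]
    apply mul_le_mul_of_nonneg_left _ (by positivity)
    have h3 := prod_sum_le' N (N ^ (j + 1)) (fun v => Phi N (t * ((c * v : ℕ) : ℝ)))
      (fun _ => Phi_nonneg _ (Nat.cast_nonneg N) _) D (by
        intro u hu
        apply hD
        rw [Finset.mem_Icc] at hu ⊢
        refine ⟨hu.1, hu.2.trans ?_⟩
        rw [← pow_succ']
        exact Nat.pow_le_pow_right hN hj)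
    rw [← pow_succ'] at h3
    exact h3

theorem sum_mult (t : ℝ) (a : ℤ) (q : ℕ) (hq : 1 ≤ q) (hcop : IsCoprime a (q : ℤ))
    (h : |t - (a : ℝ) / q| ≤ 1 / (q : ℝ) ^ 2) (N : ℝ) (hN : 0 ≤ N) (c : ℕ) (hc : 1 ≤ c) (U : ℕ) :
    ∑ u ∈ Icc 1 U, Phi N (t * ((c * u : ℕ) : ℝ)) ≤
      (c * U / q + 2) * (10 * N + 2 * q * (1 + Real.log q)) := by
  have hq0 : (0 : ℝ) < q := by exact_mod_cast hq
  obtain ⟨K, hK⟩ : ∃ K : ℕ, K = c * U / q + 1 := ⟨_, rfl⟩
  have hK1 : c * U < q * K := by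
    have h1 := Nat.div_add_mod (c * U) q
    have h2 := Nat.mod_lt (c * U) (by omega : 0 < q)
    rw [hK, Nat.mul_succ]
    omega
  have hK2 : (K : ℝ) ≤ c * U / q + 2 := by
    rw [hK]
    push_cast
    have h1 : ((c * U / q : ℕ) : ℝ) ≤ ((c * U : ℕ) : ℝ) / q := Nat.cast_div_le
    push_cast at h1
    linarith
  have hB : 0 ≤ 10 * N + 2 * q * (1 + Real.log q) := by
    have : 0 ≤ Real.log q := Real.log_nonneg (by exact_mod_cast hq)
    positivity
  calc ∑ u ∈ Icc 1 U, Phi N (t * ((c * u : ℕ) : ℝ)) = ∑ v ∈ (Icc 1 U).image (fun u : ℕ => (c * u : ℕ)),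
        Phi N (t * ((v : ℕ) : ℝ)) := by
        rw [Finset.sum_image (by
          intro x _ y _ hxy
          exact Nat.eq_of_mul_eq_mul_left (by omega) hxy)]
    _ ≤ ∑ v ∈ range (q * K), Phi N (t * (v : ℝ)) := by
        apply Finset.sum_le_sum_of_subset_of_nonneg
        · intro v hv
          rw [Finset.mem_image] at hv
          obtain ⟨u, hu, rfl⟩ := hv
          have := (Finset.mem_Icc.1 hu).2
          have h3 : c * u ≤ c * U := Nat.mul_le_mul_left c this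
          exact Finset.mem_range.2 (by omega)
        · intro _ _ _
          exact Phi_nonneg N hN _
    _ ≤ K * (10 * N + 2 * q * (1 + Real.log q)) := sum_blocks t a q hq hcop h N hN K
    _ ≤ _ := mul_le_mul_of_nonneg_right hK2 hB

/-- The multiple sum with `k - 1` variables. -/
theorem Vs_bound (k : ℕ) (hk : 2 ≤ k) (δ : ℝ) (hδ : 0 < δ) : ∃ C : ℝ, 0 ≤ C ∧
    ∀ N : ℕ, 1 ≤ N → ∀ (t : ℝ) (a : ℤ) (q : ℕ),
    1 ≤ q → q ≤ N → IsCoprime a (q : ℤ) → |t - (a : ℝ) / q| ≤ 1 / (q : ℝ) ^ 2 →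
    Vs N t (k - 1) ((k.factorial : ℕ) : ℤ) ≤ C * (N : ℝ) ^ δ * ((N : ℝ) ^ k / q) := by
  obtain ⟨j, rfl⟩ : ∃ j, k = j + 2 := ⟨k - 2, by omega⟩
  have hj1 : j + 2 - 1 = j + 1 := by omega
  rw [hj1]
  obtain ⟨δ', hδ'⟩ : ∃ δ' : ℝ, δ' = δ / (2 * (j + 1) ^ 2) := ⟨_, rfl⟩
  have hδ'0 : 0 < δ' := by
    rw [hδ']
    positivity
  obtain ⟨D, hD1, hD⟩ := exists_card_divisors_le δ' hδ'0
  obtain ⟨c, hc⟩ : ∃ c : ℕ, c = (j + 2).factorial := ⟨_, rfl⟩
  have hc1 : 1 ≤ c := by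
    rw [hc]
    exact Nat.factorial_pos _
  rw [← hc]
  have hc0 : (0 : ℝ) ≤ c := Nat.cast_nonneg c
  have hD0 : 0 ≤ D := by linarith
  refine ⟨2 ^ (j + 1) * (D ^ j * ((c + 2) * (12 + 2 / (δ / 2)))) + (j + 1) * 3 ^ (j + 1),
    by positivity, ?_⟩
  intro N hN t a q hq hqN hcop happ
  have hN0 : (0 : ℝ) < N := by exact_mod_cast hN
  have hN1 : (1 : ℝ) ≤ N := by exact_mod_cast hN
  have hq0 : (0 : ℝ) < q := by exact_mod_cast hq
  have hq1 : (1 : ℝ) ≤ q := by exact_mod_cast hq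
  have hqN' : (q : ℝ) ≤ N := by exact_mod_cast hqN
  have h1 := Vs_le_Us N t (j + 1) c
  have hNJ : (1 : ℝ) ≤ (N : ℝ) ^ (δ' * (j + 1)) := Real.one_le_rpow hN1 (by positivity)
  have h2 := Us_le N hN t (j + 1) (D * (N : ℝ) ^ (δ' * (j + 1))) (by positivity) (by
      intro u hu
      rw [Finset.mem_Icc] at hu
      refine (hD u (by omega)).trans ?_
      apply mul_le_mul_of_nonneg_left _ hD0
      have h3 : (u : ℝ) ≤ (N : ℝ) ^ ((j + 1 : ℕ) : ℝ) := by
        rw [Real.rpow_natCast]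
        exact_mod_cast hu.2
      calc (u : ℝ) ^ δ' ≤ ((N : ℝ) ^ ((j + 1 : ℕ) : ℝ)) ^ δ' :=
            Real.rpow_le_rpow (Nat.cast_nonneg u) h3 hδ'0.le
        _ = (N : ℝ) ^ (δ' * (j + 1)) := by
            rw [← Real.rpow_mul hN0.le]
            congr 1
            push_cast
            ring) j le_rfl c
  have h3 := sum_mult t a q hq hcop happ N hN0.le c hc1 (N ^ (j + 1))
  have hlog0 : 0 ≤ Real.log N := Real.log_nonneg hN1
  have hlogq : Real.log q ≤ Real.log N := Real.log_le_log hq0 hqN'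
  have hlogq0 : 0 ≤ Real.log q := Real.log_nonneg hq1
  have hlog : Real.log N ≤ 1 / (δ / 2) * (N : ℝ) ^ (δ / 2) := by
    have := Real.log_le_rpow_div hN0.le (by positivity : 0 < δ / 2)
    rw [div_eq_inv_mul] at this
    rw [one_div]
    exact this
  have hNd : 1 ≤ (N : ℝ) ^ (δ / 2) := Real.one_le_rpow hN1 (by positivity)
  obtain ⟨Y, hY⟩ : ∃ Y : ℝ, Y = (N : ℝ) ^ (j + 2) / q := ⟨_, rfl⟩
  have hY0 : 0 < Y := by
    rw [hY]
    positivity
  obtain ⟨E, hE⟩ : ∃ E : ℝ, E = (N : ℝ) ^ (δ / 2) := ⟨_, rfl⟩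
  rw [← hE] at hlog hNd
  have h4 : ∑ u ∈ Icc 1 (N ^ (j + 1)), Phi N (t * ((c * u : ℕ) : ℝ)) ≤
      ((c + 2) * (12 + 2 / (δ / 2))) * E * Y := by
    refine h3.trans ?_
    have a1 : (c : ℝ) * ((N ^ (j + 1) : ℕ) : ℝ) / q + 2 ≤ (c + 2) * ((N : ℝ) ^ (j + 1) / q) := by
      have h5 : (1 : ℝ) ≤ (N : ℝ) ^ (j + 1) / q := by
        rw [le_div_iff₀ hq0, one_mul]
        calc (q : ℝ) ≤ N := hqN'
          _ = (N : ℝ) ^ 1 := (pow_one _).symm
          _ ≤ _ := pow_le_pow_right₀ hN1 (by omega)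
      have e : (c : ℝ) * ((N ^ (j + 1) : ℕ) : ℝ) / q = c * ((N : ℝ) ^ (j + 1) / q) := by
        push_cast
        ring
      rw [e]
      linarith
    have a2 : 10 * (N : ℝ) + 2 * q * (1 + Real.log q) ≤ N * ((12 + 2 / (δ / 2)) * E) := by
      have b1 : 2 * (q : ℝ) * (1 + Real.log q) ≤ 2 * N * (1 + Real.log N) := by
        apply mul_le_mul (by linarith) (by linarith) (by linarith) (by positivity)
      have b2 : 12 + 2 * Real.log N ≤ (12 + 2 / (δ / 2)) * E := by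
        have : 2 * (1 / (δ / 2) * E) = 2 / (δ / 2) * E := by ring
        nlinarith
      have b3 := mul_le_mul_of_nonneg_left b2 hN0.le
      linarith
    have a3 : 0 ≤ 10 * (N : ℝ) + 2 * q * (1 + Real.log q) := by positivity
    calc ((c : ℝ) * ((N ^ (j + 1) : ℕ) : ℝ) / q + 2) * (10 * N + 2 * q * (1 + Real.log q))
        ≤ ((c + 2) * ((N : ℝ) ^ (j + 1) / q)) * (N * ((12 + 2 / (δ / 2)) * E)) :=
          mul_le_mul a1 a2 a3 (by positivity)
      _ = _ := by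
          rw [hY]
          ring
  have hE0 : 0 ≤ E := by linarith
  have h5 : Us N t (j + 1) c ≤ D ^ j * ((c + 2) * (12 + 2 / (δ / 2))) * (N : ℝ) ^ δ * Y := by
    refine h2.trans ?_
    have e1 : (D * (N : ℝ) ^ (δ' * (j + 1))) ^ j ≤ D ^ j * E := by
      rw [mul_pow]
      apply mul_le_mul_of_nonneg_left _ (by positivity)
      rw [← Real.rpow_natCast, ← Real.rpow_mul hN0.le, hE]
      apply Real.rpow_le_rpow_of_exponent_le hN1
      rw [hδ']
      have hjj : (0 : ℝ) < j + 1 := by positivity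
      have : δ / (2 * ((j : ℝ) + 1) ^ 2) * (j + 1) * j = δ / 2 * (j / (j + 1)) := by
        field_simp
      rw [this]
      have h6 : (j : ℝ) / (j + 1) ≤ 1 := by
        rw [div_le_one hjj]
        linarith
      calc δ / 2 * ((j : ℝ) / (j + 1)) ≤ δ / 2 * 1 := mul_le_mul_of_nonneg_left h6 (by positivity)
        _ = δ / 2 := mul_one _
    have h40 : 0 ≤ ((c + 2) * (12 + 2 / (δ / 2))) * E * Y := by positivity
    calc (D * (N : ℝ) ^ (δ' * (j + 1))) ^ j * ∑ u ∈ Icc 1 (N ^ (j + 1)), Phi N (t * ((c * u : ℕ) : ℝ))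
        ≤ (D * (N : ℝ) ^ (δ' * (j + 1))) ^ j * (((c + 2) * (12 + 2 / (δ / 2))) * E * Y) :=
          mul_le_mul_of_nonneg_left h4 (by positivity)
      _ ≤ (D ^ j * E) * (((c + 2) * (12 + 2 / (δ / 2))) * E * Y) :=
          mul_le_mul_of_nonneg_right e1 h40
      _ = D ^ j * ((c + 2) * (12 + 2 / (δ / 2))) * (E * E) * Y := by ring
      _ = _ := by
          rw [hE, ← Real.rpow_add hN0]
          congr 3
          ring
  have hNδ : 1 ≤ (N : ℝ) ^ δ := Real.one_le_rpow hN1 hδ.le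
  have h6 : ((2 * N + 1 : ℕ) : ℝ) ^ (j + 1) ≤ 3 ^ (j + 1) * ((N : ℝ) ^ δ * Y) := by
    have a1 : ((2 * N + 1 : ℕ) : ℝ) ≤ 3 * N := by
      push_cast
      linarith
    have a2 : (N : ℝ) ^ (j + 1) ≤ Y := by
      rw [hY, le_div_iff₀ hq0, pow_succ (N : ℝ) (j + 1)]
      exact mul_le_mul_of_nonneg_left hqN' (by positivity)
    have a3 : Y ≤ (N : ℝ) ^ δ * Y := by nlinarith
    calc ((2 * N + 1 : ℕ) : ℝ) ^ (j + 1) ≤ (3 * (N : ℝ)) ^ (j + 1) :=
          pow_le_pow_left₀ (by positivity) a1 _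
      _ = 3 ^ (j + 1) * (N : ℝ) ^ (j + 1) := mul_pow _ _ _
      _ ≤ 3 ^ (j + 1) * ((N : ℝ) ^ δ * Y) :=
          mul_le_mul_of_nonneg_left (a2.trans a3) (by positivity)
  rw [← hY]
  calc Vs N t (j + 1) (c : ℤ) ≤ 2 ^ (j + 1) * Us N t (j + 1) c +
        ((j + 1 : ℕ) : ℝ) * ((2 * N + 1 : ℕ) : ℝ) ^ (j + 1) := h1
    _ ≤ 2 ^ (j + 1) * (D ^ j * ((c + 2) * (12 + 2 / (δ / 2))) * (N : ℝ) ^ δ * Y) +
        ((j + 1 : ℕ) : ℝ) * (3 ^ (j + 1) * ((N : ℝ) ^ δ * Y)) := by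
        apply add_le_add
        · exact mul_le_mul_of_nonneg_left h5 (by positivity)
        · exact mul_le_mul_of_nonneg_left h6 (by positivity)
    _ = _ := by
        push_cast
        ring

end Pool.Agent.Helper20_Mont
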