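import Pool.Agent.Helper20_Mont.Fourth

set_option autoImplicit false

/-! Maximal inequality in `ξ` on a grid, and the number of bad grid points. -/

namespace Pool.Agent.Helper20_Mont

open Finset Pool.Agent.Helper69_Weyl

theorem W_xi_int (k N : ℕ) (t ξ : ℝ) (m : ℤ) : W k N t (ξ + m) = W k N t ξ := by
  unfold W
  apply Finset.sum_congr rfl
  intro n _
  have : t * (n : ℝ) ^ k + (ξ + m) * n = (t * (n : ℝ) ^ k + ξ * n) + ((m * (n : ℤ) : ℤ) : ℝ) := by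
    push_cast
    ring
  rw [this, ee_add, ee_int, mul_one]

/-- the second moment -/
theorem second (k N : ℕ) (t : ℝ) (Q : ℕ) (hQ : N ≤ Q) (hQ0 : 0 < Q) :
    ∑ j ∈ range Q, ‖W k N t ((j : ℝ) / Q)‖ ^ 2 = Q * N := by
  have h1 : ((∑ j ∈ range Q, ‖W k N t ((j : ℝ) / Q)‖ ^ 2 : ℝ) : ℂ) = ((Q * N : ℝ) : ℂ) := by
    rw [Complex.ofReal_sum]
    have e1 : ∀ j ∈ range Q, ((‖W k N t ((j : ℝ) / Q)‖ ^ 2 : ℝ) : ℂ) =
        ∑ n ∈ Icc 1 N, ∑ m ∈ Icc 1 N, ee (t * (n : ℝ) ^ k - t * (m : ℝ) ^ k) *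
          ee ((j : ℝ) / Q * ((n : ℤ) - (m : ℤ) : ℤ)) := by
      intro j _
      push_cast
      rw [← Complex.mul_conj']
      unfold W
      rw [map_sum, Finset.sum_mul_sum]
      apply Finset.sum_congr rfl
      intro n _
      apply Finset.sum_congr rfl
      intro m _
      rw [conj_ee, ← ee_add, ← ee_add]
      congr 1
      push_cast
      ring
    rw [Finset.sum_congr rfl e1, Finset.sum_comm]
    have e2 : ∀ n ∈ Icc 1 N, ∑ j ∈ range Q, ∑ m ∈ Icc 1 N,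
        ee (t * (n : ℝ) ^ k - t * (m : ℝ) ^ k) * ee ((j : ℝ) / Q * ((n : ℤ) - (m : ℤ) : ℤ)) =
        (Q : ℂ) := by
      intro n hn
      rw [Finset.sum_comm]
      have e3 : ∀ m ∈ Icc 1 N, ∑ j ∈ range Q, ee (t * (n : ℝ) ^ k - t * (m : ℝ) ^ k) *
          ee ((j : ℝ) / Q * ((n : ℤ) - (m : ℤ) : ℤ)) = if m = n then (Q : ℂ) else 0 := by
        intro m hm
        rw [← Finset.mul_sum, sum_ee_div Q hQ0]
        rw [Finset.mem_Icc] at hn hm
        by_cases h : m = n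
        · subst h
          simp [ee_zero]
        · have hnd : ¬ (Q : ℤ) ∣ ((n : ℤ) - (m : ℤ)) := by
            intro hd
            have h5 : |((n : ℤ) - (m : ℤ))| < Q := by
              rw [abs_lt]
              constructor <;> omega
            have := Int.eq_zero_of_abs_lt_dvd hd h5
            omega
          simp [hnd, h]
      rw [Finset.sum_congr rfl e3, Finset.sum_ite_eq', if_pos hn]
    rw [Finset.sum_congr rfl e2, Finset.sum_const, Nat.card_Icc, nsmul_eq_mul]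
    push_cast
    ring
  exact_mod_cast h1

/-- a shift of a periodic function on the grid -/
theorem shift_grid (Q : ℕ) (hQ : 0 < Q) (F : ℝ → ℝ) (hF : ∀ x, F (x + 1) = F x) (i : ℕ) :
    ∑ j ∈ range Q, F ((j : ℝ) / Q + (i : ℝ) / Q) = ∑ j ∈ range Q, F ((j : ℝ) / Q) := by
  have hQ0 : (Q : ℝ) ≠ 0 := by exact_mod_cast hQ.ne'
  induction i with
  | zero => simp
  | succ i ih =>
    rw [← ih]
    obtain ⟨q, rfl⟩ : ∃ q, Q = q + 1 := ⟨Q - 1, by omega⟩
    rw [Finset.sum_range_succ, Finset.sum_range_succ']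
    congr 1
    · apply Finset.sum_congr rfl
      intro j _
      congr 1
      push_cast
      ring
    · have h1 := hF (((0 : ℕ) : ℝ) / ((q + 1 : ℕ) : ℝ) + (i : ℝ) / ((q + 1 : ℕ) : ℝ))
      rw [← h1]
      congr 1
      push_cast at hQ0 ⊢
      field_simp
      ring

/-- the logarithmic factor -/
noncomputable def LL (N : ℕ) : ℝ := 5 + 2 * Real.log (4 * N)

theorem kernel_sum (N : ℕ) (hN : 1 ≤ N) :
    ∑ i ∈ range (4 * N), Phi N ((i : ℝ) / ((4 * N : ℕ) : ℝ)) ≤ ((4 * N : ℕ) : ℝ) * LL N := by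
  have hN0 : (0 : ℝ) < N := by exact_mod_cast hN
  have h := block (1 / ((4 * N : ℕ) : ℝ)) 1 (4 * N) (by omega) isCoprime_one_left (by
    have : 1 / ((4 * N : ℕ) : ℝ) - ((1 : ℤ) : ℝ) / ((4 * N : ℕ) : ℝ) = 0 := by
      push_cast
      ring
    rw [this, abs_zero]
    positivity) N hN0.le 0
  have e1 : ∀ i ∈ range (4 * N), Phi N ((i : ℝ) / ((4 * N : ℕ) : ℝ)) =
      Phi N (1 / ((4 * N : ℕ) : ℝ) * ((0 + i : ℕ) : ℝ)) := by
    intro i _
    congr 1
    push_cast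
    ring
  rw [Finset.sum_congr rfl e1]
  refine h.trans ?_
  unfold LL
  push_cast
  nlinarith

/-- Completion on the grid. -/
theorem complete_grid (k N m : ℕ) (hN : 1 ≤ N) (hm : m ≤ N) (t ξ : ℝ) :
    ((4 * N : ℕ) : ℝ) * ‖W k m t ξ‖ ≤ ∑ i ∈ range (4 * N), Phi N ((i : ℝ) / ((4 * N : ℕ) : ℝ)) *
      ‖W k N t (ξ + (i : ℝ) / ((4 * N : ℕ) : ℝ))‖ := by
  set Q : ℕ := 4 * N with hQ
  have hQ0 : 0 < Q := by omega
  have key : (Q : ℂ) * W k m t ξ = ∑ j ∈ range Q, (∑ l ∈ Icc 1 m, ee (-((j : ℝ) / Q) * l)) *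
      W k N t (ξ + (j : ℝ) / Q) := by
    have e1 : ∀ j ∈ range Q, (∑ l ∈ Icc 1 m, ee (-((j : ℝ) / Q) * l)) *
        W k N t (ξ + (j : ℝ) / Q) = ∑ l ∈ Icc 1 m, ∑ n ∈ Icc 1 N,
          ee (t * (n : ℝ) ^ k + ξ * n) * ee ((j : ℝ) / Q * ((n : ℤ) - (l : ℤ) : ℤ)) := by
      intro j _
      unfold W
      rw [Finset.sum_mul_sum]
      apply Finset.sum_congr rfl
      intro l _
      apply Finset.sum_congr rfl
      intro n _
      rw [← ee_add, ← ee_add]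
      congr 1
      push_cast
      ring
    rw [Finset.sum_congr rfl e1, Finset.sum_comm]
    have e2 : ∀ l ∈ Icc 1 m, ∑ j ∈ range Q, ∑ n ∈ Icc 1 N,
          ee (t * (n : ℝ) ^ k + ξ * n) * ee ((j : ℝ) / Q * ((n : ℤ) - (l : ℤ) : ℤ)) =
          (Q : ℂ) * ee (t * (l : ℝ) ^ k + ξ * l) := by
      intro l hl
      have hl' := Finset.mem_Icc.1 hl
      rw [Finset.sum_comm]
      have e3 : ∀ n ∈ Icc 1 N, ∑ j ∈ range Q,
          ee (t * (n : ℝ) ^ k + ξ * n) * ee ((j : ℝ) / Q * ((n : ℤ) - (l : ℤ) : ℤ)) =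
          if n = l then (Q : ℂ) * ee (t * (l : ℝ) ^ k + ξ * l) else 0 := by
        intro n hn
        have hn' := Finset.mem_Icc.1 hn
        rw [← Finset.mul_sum, sum_ee_div Q hQ0]
        by_cases h : n = l
        · subst h
          simp
          ring
        · have hnd : ¬ (Q : ℤ) ∣ ((n : ℤ) - (l : ℤ)) := by
            intro hd
            have h5 : |((n : ℤ) - (l : ℤ))| < Q := by
              rw [abs_lt]
              constructor <;> omega
            have := Int.eq_zero_of_abs_lt_dvd hd h5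
            omega
          simp [hnd, h]
      rw [Finset.sum_congr rfl e3, Finset.sum_ite_eq']
      rw [if_pos]
      rw [Finset.mem_Icc]
      omega
    rw [Finset.sum_congr rfl e2, ← Finset.mul_sum]
    rfl
  calc (Q : ℝ) * ‖W k m t ξ‖ = ‖(Q : ℂ) * W k m t ξ‖ := by
        rw [norm_mul]; simp
    _ ≤ ∑ j ∈ range Q, ‖(∑ l ∈ Icc 1 m, ee (-((j : ℝ) / Q) * l)) *
          W k N t (ξ + (j : ℝ) / Q)‖ := by
        rw [key]; exact norm_sum_le _ _
    _ ≤ _ := by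
        apply Finset.sum_le_sum
        intro j _
        rw [norm_mul]
        apply mul_le_mul_of_nonneg_right _ (norm_nonneg _)
        have h1 := norm_geom_int (-((j : ℝ) / Q)) 1 m N (by omega)
        rw [Phi_neg] at h1
        refine le_trans (le_of_eq ?_) h1
        congr 1
        apply Finset.sum_nbij' (fun m : ℕ => (m : ℤ)) (fun n : ℤ => n.toNat)
        · intro m hm
          rw [Finset.mem_Icc] at hm ⊢
          omega
        · intro n hn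
          rw [Finset.mem_Icc] at hn ⊢
          omega
        · intro m hm
          rw [Finset.mem_Icc] at hm
          omega
        · intro n hn
          rw [Finset.mem_Icc] at hn
          omega
        · intro m _
          push_cast
          rfl

open Classical in
/-- bad grid points for fixed `t` -/
noncomputable def badX (k N : ℕ) (t B : ℝ) : Finset ℕ :=
  (range (4 * N)).filter (fun j => ∃ m ≤ N, B ≤ ‖W k m t ((j : ℝ) / ((4 * N : ℕ) : ℝ))‖)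

/-- the averaged majorant of the `p`-th power of the partial sums -/
noncomputable def RR (k N p : ℕ) (t ξ : ℝ) : ℝ :=
  (LL N) ^ p * ∑ i ∈ range (4 * N), Phi N ((i : ℝ) / ((4 * N : ℕ) : ℝ)) /
    (∑ i ∈ range (4 * N), Phi N ((i : ℝ) / ((4 * N : ℕ) : ℝ))) *
    ‖W k N t (ξ + (i : ℝ) / ((4 * N : ℕ) : ℝ))‖ ^ p

theorem ksum_pos (N : ℕ) (hN : 1 ≤ N) :
    0 < ∑ i ∈ range (4 * N), Phi N ((i : ℝ) / ((4 * N : ℕ) : ℝ)) := by
  have hN0 : (0 : ℝ) < N := by exact_mod_cast hN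
  apply Finset.sum_pos'
  · intro i _
    exact Phi_nonneg _ hN0.le _
  · refine ⟨0, Finset.mem_range.2 (by omega), ?_⟩
    rw [Nat.cast_zero, zero_div, Phi_zero]
    linarith

theorem LL_nonneg (N : ℕ) (hN : 1 ≤ N) : 0 ≤ LL N := by
  have h1 := ksum_pos N hN
  have h2 := h1.le.trans (kernel_sum N hN)
  have hQr : (0 : ℝ) < ((4 * N : ℕ) : ℝ) := by
    have : 0 < 4 * N := by omega
    exact_mod_cast this
  exact nonneg_of_mul_nonneg_right h2 hQr

theorem RR_nonneg (k N p : ℕ) (hN : 1 ≤ N) (t ξ : ℝ) : 0 ≤ RR k N p t ξ := by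
  have hN0 : (0 : ℝ) < N := by exact_mod_cast hN
  unfold RR
  apply mul_nonneg (pow_nonneg (LL_nonneg N hN) p)
  exact Finset.sum_nonneg (fun i _ => mul_nonneg (div_nonneg (Phi_nonneg _ hN0.le _)
    (ksum_pos N hN).le) (by positivity))

/-- pointwise maximal bound -/
theorem le_RR (k N p m : ℕ) (hN : 1 ≤ N) (hm : m ≤ N) (t ξ : ℝ) :
    (‖W k m t ξ‖) ^ p ≤ RR k N p t ξ := by
  unfold RR
  set Q : ℕ := 4 * N with hQ
  have hQ0 : 0 < Q := by omega
  have hQr : (0 : ℝ) < Q := by exact_mod_cast hQ0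
  have hN0 : (0 : ℝ) < N := by exact_mod_cast hN
  set κ : ℕ → ℝ := fun i => Phi N ((i : ℝ) / (Q : ℝ)) with hκ
  have hκ0 : ∀ i, 0 ≤ κ i := fun i => Phi_nonneg _ hN0.le _
  set K : ℝ := ∑ i ∈ range Q, κ i with hK
  have hK0 : 0 < K := ksum_pos N hN
  have hKle : K ≤ Q * LL N := kernel_sum N hN
  have h1 := complete_grid k N m hN hm t ξ
  have h2 : ‖W k m t ξ‖ ≤ LL N * ∑ i ∈ range Q, κ i / K * ‖W k N t (ξ + (i : ℝ) / (Q : ℝ))‖ := by
    have h3 : ∑ i ∈ range Q, κ i * ‖W k N t (ξ + (i : ℝ) / (Q : ℝ))‖ =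
        K * ∑ i ∈ range Q, κ i / K * ‖W k N t (ξ + (i : ℝ) / (Q : ℝ))‖ := by
      rw [Finset.mul_sum]
      apply Finset.sum_congr rfl
      intro i _
      field_simp
    have h4 : 0 ≤ ∑ i ∈ range Q, κ i / K * ‖W k N t (ξ + (i : ℝ) / (Q : ℝ))‖ :=
      Finset.sum_nonneg (fun i _ => mul_nonneg (div_nonneg (hκ0 i) hK0.le) (norm_nonneg _))
    have h5 : (Q : ℝ) * ‖W k m t ξ‖ ≤ Q * (LL N *
        ∑ i ∈ range Q, κ i / K * ‖W k N t (ξ + (i : ℝ) / (Q : ℝ))‖) := by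
      refine h1.trans ?_
      rw [h3, ← mul_assoc]
      exact mul_le_mul_of_nonneg_right hKle h4
    exact le_of_mul_le_mul_left h5 hQr
  have h6 : (∑ i ∈ range Q, κ i / K * ‖W k N t (ξ + (i : ℝ) / (Q : ℝ))‖) ^ p ≤
      ∑ i ∈ range Q, κ i / K * ‖W k N t (ξ + (i : ℝ) / (Q : ℝ))‖ ^ p := by
    apply Real.pow_arith_mean_le_arith_mean_pow
    · intro i _
      exact div_nonneg (hκ0 i) hK0.le
    · rw [← Finset.sum_div, div_self hK0.ne']
    · intro i _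
      exact norm_nonneg _
  have hLL : 0 ≤ LL N := LL_nonneg N hN
  calc (‖W k m t ξ‖) ^ p ≤ (LL N * ∑ i ∈ range Q, κ i / K *
        ‖W k N t (ξ + (i : ℝ) / (Q : ℝ))‖) ^ p := pow_le_pow_left₀ (norm_nonneg _) h2 p
    _ = (LL N) ^ p * (∑ i ∈ range Q, κ i / K * ‖W k N t (ξ + (i : ℝ) / (Q : ℝ))‖) ^ p :=
        mul_pow _ _ _
    _ ≤ _ := mul_le_mul_of_nonneg_left h6 (pow_nonneg hLL p)

theorem sum_RR (k N p : ℕ) (hN : 1 ≤ N) (t : ℝ) :
    ∑ j ∈ range (4 * N), RR k N p t ((j : ℝ) / ((4 * N : ℕ) : ℝ)) =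
      (LL N) ^ p * ∑ j ∈ range (4 * N), ‖W k N t ((j : ℝ) / ((4 * N : ℕ) : ℝ))‖ ^ p := by
  unfold RR
  set Q : ℕ := 4 * N with hQ
  have hQ0 : 0 < Q := by omega
  set κ : ℕ → ℝ := fun i => Phi N ((i : ℝ) / (Q : ℝ)) with hκ
  set K : ℝ := ∑ i ∈ range Q, κ i with hK
  have hK0 : 0 < K := ksum_pos N hN
  rw [← Finset.mul_sum, Finset.sum_comm]
  congr 1
  calc ∑ i ∈ range Q, ∑ j ∈ range Q, κ i / K * ‖W k N t ((j : ℝ) / Q + (i : ℝ) / (Q : ℝ))‖ ^ p
      = ∑ i ∈ range Q, κ i / K * ∑ j ∈ range Q, ‖W k N t ((j : ℝ) / Q)‖ ^ p := by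
        apply Finset.sum_congr rfl
        intro i _
        rw [← Finset.mul_sum, shift_grid Q hQ0 (fun x => ‖W k N t x‖ ^ p) (by
          intro x
          have := W_xi_int k N t x 1
          push_cast at this
          simp only [this])]
    _ = ∑ j ∈ range Q, ‖W k N t ((j : ℝ) / (Q : ℝ))‖ ^ p := by
        rw [← Finset.sum_mul, ← Finset.sum_div, div_self hK0.ne', one_mul]

/-- The number of bad grid points. -/
theorem card_badX (k N p : ℕ) (hN : 1 ≤ N) (t B : ℝ) (hB : 0 ≤ B) :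
    ((badX k N t B).card : ℝ) * B ^ p ≤
      (LL N) ^ p * ∑ j ∈ range (4 * N), ‖W k N t ((j : ℝ) / ((4 * N : ℕ) : ℝ))‖ ^ p := by
  classical
  rw [← sum_RR k N p hN t]
  calc ((badX k N t B).card : ℝ) * B ^ p = ∑ j ∈ badX k N t B, B ^ p := by
        rw [Finset.sum_const, nsmul_eq_mul]
    _ ≤ ∑ j ∈ badX k N t B, RR k N p t ((j : ℝ) / ((4 * N : ℕ) : ℝ)) := by
        apply Finset.sum_le_sum
        intro j hj
        unfold badX at hj
        rw [Finset.mem_filter] at hj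
        obtain ⟨-, m, hm, hBm⟩ := hj
        exact (pow_le_pow_left₀ hB hBm p).trans (le_RR k N p m hN hm t _)
    _ ≤ ∑ j ∈ range (4 * N), RR k N p t ((j : ℝ) / ((4 * N : ℕ) : ℝ)) := by
        apply Finset.sum_le_sum_of_subset_of_nonneg
        · exact Finset.filter_subset _ _
        · intro j _ _
          exact RR_nonneg k N p hN t _

/-- Changing `ξ` a little. -/
theorem perturb_xi (k M : ℕ) (t ξ ξ₀ : ℝ) (B : ℝ) (hB : ∀ m ≤ M, ‖W k m t ξ₀‖ ≤ B)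
    (D : ℝ) (hD : |ξ - ξ₀| * (M : ℝ) ≤ D) :
    ‖W k M t ξ‖ ≤ B * (1 + 2 * Real.pi * D) := by
  have e1 : W k M t ξ = ∑ n ∈ Icc 1 M, ee (t * (n : ℝ) ^ k + ξ₀ * n) * ee ((ξ - ξ₀) * (n : ℝ)) := by
    unfold W
    apply Finset.sum_congr rfl
    intro n _
    rw [← ee_add]
    congr 1
    ring
  rw [e1]
  apply abel_bound (fun n => ee (t * (n : ℝ) ^ k + ξ₀ * n)) (fun n => ee ((ξ - ξ₀) * (n : ℝ)))
  · exact hB
  · rw [norm_ee]
    have h1 : ∀ m ∈ Ico 1 M, ‖ee ((ξ - ξ₀) * ((m + 1 : ℕ) : ℝ)) - ee ((ξ - ξ₀) * (m : ℝ))‖ ≤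
        2 * Real.pi * |ξ - ξ₀| := by
      intro m _
      refine (norm_ee_sub_le _ _).trans (le_of_eq ?_)
      rw [← mul_sub, abs_mul]
      have : ((m + 1 : ℕ) : ℝ) - (m : ℝ) = 1 := by push_cast; ring
      rw [this, abs_one]
      ring
    have h3 : ∑ m ∈ Ico 1 M, ‖ee ((ξ - ξ₀) * ((m + 1 : ℕ) : ℝ)) - ee ((ξ - ξ₀) * (m : ℝ))‖ ≤
        2 * Real.pi * (|ξ - ξ₀| * (M : ℝ)) := by
      refine (Finset.sum_le_sum h1).trans ?_
      rw [Finset.sum_const, Nat.card_Ico, nsmul_eq_mul]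
      have h5 : ((M - 1 : ℕ) : ℝ) ≤ M := by exact_mod_cast Nat.sub_le _ _
      have h6 : 0 ≤ 2 * Real.pi * |ξ - ξ₀| := by positivity
      calc ((M - 1 : ℕ) : ℝ) * (2 * Real.pi * |ξ - ξ₀|) ≤ M * (2 * Real.pi * |ξ - ξ₀|) :=
            mul_le_mul_of_nonneg_right h5 h6
        _ = _ := by ring
    have h4 : 2 * Real.pi * (|ξ - ξ₀| * (M : ℝ)) ≤ 2 * Real.pi * D :=
      mul_le_mul_of_nonneg_left hD (by positivity)
    linarith

/-- A point in the cell of a good grid point. -/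
theorem good_cell (k N : ℕ) (hN : 1 ≤ N) (t B : ℝ) (hB : 0 ≤ B) (m : ℤ) (ξ : ℝ)
    (hξ : ξ ∈ Set.Ico (m : ℝ) (m + 1))
    (h : ∀ r ∈ badX k N t B, ¬ |ξ - (m + (r : ℝ) / ((4 * N : ℕ) : ℝ))| ≤ 1 / ((4 * N : ℕ) : ℝ)) :
    ∀ M ≤ N, ‖W k M t ξ‖ ≤ 3 * B := by
  classical
  intro M hM
  set Q : ℕ := 4 * N with hQ
  have hQ0 : (0 : ℝ) < Q := by
    have : 0 < Q := by omega
    exact_mod_cast this
  have hN0 : (0 : ℝ) < N := by exact_mod_cast hN
  set r : ℕ := ⌊(ξ - m) * Q⌋₊ with hr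
  have ht0 : 0 ≤ (ξ - m) * Q := mul_nonneg (by linarith [hξ.1]) hQ0.le
  have hr1 : (r : ℝ) ≤ (ξ - m) * Q := Nat.floor_le ht0
  have hr2 : (ξ - m) * Q < r + 1 := Nat.lt_floor_add_one _
  have hrQ : r < Q := by
    have h1 : (r : ℝ) < Q := by
      calc (r : ℝ) ≤ (ξ - m) * Q := hr1
        _ < 1 * Q := mul_lt_mul_of_pos_right (by linarith [hξ.2]) hQ0
        _ = Q := one_mul _
    exact_mod_cast h1
  have hclose : |ξ - (m + (r : ℝ) / Q)| ≤ 1 / Q := by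
    have h1 : (r : ℝ) / Q ≤ ξ - m := by rw [div_le_iff₀ hQ0]; exact hr1
    have h2 : ξ - m < (r : ℝ) / Q + 1 / Q := by
      rw [← add_div, lt_div_iff₀ hQ0]; exact hr2
    rw [abs_le]
    constructor <;> linarith
  have hnb : r ∉ badX k N t B := fun hb => h r hb hclose
  have hW : ∀ m' ≤ M, ‖W k m' t (m + (r : ℝ) / Q)‖ ≤ B := by
    intro m' hm'
    by_contra hcon
    push Not at hcon
    apply hnb
    unfold badX
    rw [Finset.mem_filter, Finset.mem_range]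
    refine ⟨hrQ, m', hm'.trans hM, ?_⟩
    have := W_xi_int k m' t ((r : ℝ) / Q) m
    rw [add_comm] at this
    rw [← this]
    exact hcon.le
  have hp := perturb_xi k M t ξ (m + (r : ℝ) / Q) B hW (1 / 4) (by
    have hMN : (M : ℝ) ≤ N := by exact_mod_cast hM
    calc |ξ - (m + (r : ℝ) / Q)| * (M : ℝ) ≤ 1 / Q * N :=
          mul_le_mul hclose hMN (Nat.cast_nonneg M) (by positivity)
      _ = 1 / 4 := by
          rw [hQ]
          push_cast
          field_simp)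
  refine hp.trans ?_
  have hpi : 1 + 2 * Real.pi * (1 / 4) ≤ 3 := by
    have := Real.pi_lt_four
    linarith
  calc B * (1 + 2 * Real.pi * (1 / 4)) ≤ B * 3 := mul_le_mul_of_nonneg_left hpi hB
    _ = 3 * B := mul_comm _ _

end Pool.Agent.Helper20_Mont
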