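import Pool.Agent.Helper20_Mont.DimXi

set_option autoImplicit false

/-! The twelfth moment of the cubic Weyl sum in `ξ`, for fixed `t`. -/

namespace Pool.Agent.Helper20_Mont

open Finset Pool.Agent.Helper69_Weyl MeasureTheory

theorem twelve_grid (δ : ℝ) (hδ : 0 < δ) : ∃ C : ℝ, 0 ≤ C ∧ ∀ N : ℕ, 1 ≤ N →
    ∀ (t : ℝ) (a : ℤ) (q : ℕ), 1 ≤ q → q ≤ N → IsCoprime a (q : ℤ) →
    |t - (a : ℝ) / q| ≤ 1 / (q : ℝ) ^ 2 →
    ∑ j ∈ range (4 * N), ‖W 3 N t ((j : ℝ) / ((4 * N : ℕ) : ℝ))‖ ^ 12 ≤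
      C * (N : ℝ) ^ (12 + δ) / (q : ℝ) ^ 3 := by
  obtain ⟨C, hC0, hC⟩ := fourth (δ / 3) (by positivity)
  refine ⟨C ^ 3, by positivity, ?_⟩
  intro N hN t a q hq hqN hcop happ
  have hN0 : (0 : ℝ) < N := by exact_mod_cast hN
  have hq0 : (0 : ℝ) < q := by exact_mod_cast hq
  have h1 := hC N hN t a q hq hqN hcop happ
  set S : ℝ := ∑ j ∈ range (4 * N), ‖W 3 N t ((j : ℝ) / ((4 * N : ℕ) : ℝ))‖ ^ 4 with hS
  have hS0 : 0 ≤ S := Finset.sum_nonneg (fun _ _ => by positivity)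
  have hle : ∀ j ∈ range (4 * N), ‖W 3 N t ((j : ℝ) / ((4 * N : ℕ) : ℝ))‖ ^ 12 ≤
      S ^ 2 * ‖W 3 N t ((j : ℝ) / ((4 * N : ℕ) : ℝ))‖ ^ 4 := by
    intro j hj
    have h2 : ‖W 3 N t ((j : ℝ) / ((4 * N : ℕ) : ℝ))‖ ^ 4 ≤ S :=
      Finset.single_le_sum (f := fun j : ℕ => ‖W 3 N t ((j : ℝ) / ((4 * N : ℕ) : ℝ))‖ ^ 4)
        (fun _ _ => by positivity) hj
    have h3 : (‖W 3 N t ((j : ℝ) / ((4 * N : ℕ) : ℝ))‖ ^ 4) ^ 2 ≤ S ^ 2 :=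
      pow_le_pow_left₀ (by positivity) h2 2
    calc ‖W 3 N t ((j : ℝ) / ((4 * N : ℕ) : ℝ))‖ ^ 12 =
        (‖W 3 N t ((j : ℝ) / ((4 * N : ℕ) : ℝ))‖ ^ 4) ^ 2 *
          ‖W 3 N t ((j : ℝ) / ((4 * N : ℕ) : ℝ))‖ ^ 4 := by ring
      _ ≤ _ := mul_le_mul_of_nonneg_right h3 (by positivity)
  calc ∑ j ∈ range (4 * N), ‖W 3 N t ((j : ℝ) / ((4 * N : ℕ) : ℝ))‖ ^ 12
      ≤ ∑ j ∈ range (4 * N), S ^ 2 * ‖W 3 N t ((j : ℝ) / ((4 * N : ℕ) : ℝ))‖ ^ 4 :=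
        Finset.sum_le_sum hle
    _ = S ^ 3 := by rw [← Finset.mul_sum, ← hS]; ring
    _ ≤ (C * (N : ℝ) ^ (4 + δ / 3) / q) ^ 3 := pow_le_pow_left₀ hS0 h1 3
    _ = C ^ 3 * (N : ℝ) ^ (12 + δ) / (q : ℝ) ^ 3 := by
        have e : (N : ℝ) ^ (12 + δ) = ((N : ℝ) ^ (4 + δ / 3)) ^ 3 := by
          rw [← Real.rpow_natCast ((N : ℝ) ^ (4 + δ / 3)), ← Real.rpow_mul hN0.le]
          congr 1
          push_cast
          ring
        rw [e]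
        ring

theorem continuous_W (k N : ℕ) (t : ℝ) : Continuous (fun ξ => W k N t ξ) := by
  unfold W ee
  fun_prop

/-- The twelfth moment. -/
theorem twelve (δ : ℝ) (hδ : 0 < δ) : ∃ C : ℝ, 0 ≤ C ∧ ∀ N : ℕ, 1 ≤ N →
    ∀ (t : ℝ) (a : ℤ) (q : ℕ), 1 ≤ q → q ≤ N → IsCoprime a (q : ℤ) →
    |t - (a : ℝ) / q| ≤ 1 / (q : ℝ) ^ 2 →
    ∫ ξ in (0 : ℝ)..1, ‖W 3 N t ξ‖ ^ 12 ≤ C * (N : ℝ) ^ (11 + δ) / (q : ℝ) ^ 3 := by
  obtain ⟨C1, hC10, hC1⟩ := twelve_grid (δ / 2) (by positivity)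
  obtain ⟨C2, hC20, hC2⟩ := LL_le 12 (δ / 2) (by positivity)
  refine ⟨3 ^ 12 * (C2 * C1), by positivity, ?_⟩
  intro N hN t a q hq hqN hcop happ
  have hN0 : (0 : ℝ) < N := by exact_mod_cast hN
  have hq0 : (0 : ℝ) < q := by exact_mod_cast hq
  set Q : ℕ := 4 * N with hQ
  have hQ0 : (0 : ℝ) < Q := by
    have : 0 < Q := by omega
    exact_mod_cast this
  have hcont : Continuous (fun ξ : ℝ => ‖W 3 N t ξ‖ ^ 12) := (continuous_W 3 N t).norm.pow 12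
  have hint : ∀ a b : ℝ, IntervalIntegrable (fun ξ : ℝ => ‖W 3 N t ξ‖ ^ 12) volume a b :=
    fun a b => hcont.intervalIntegrable a b
  have hsum := intervalIntegral.sum_integral_adjacent_intervals
    (f := fun ξ : ℝ => ‖W 3 N t ξ‖ ^ 12) (μ := volume) (a := fun j : ℕ => (j : ℝ) / Q) (n := Q)
    (fun j _ => hint _ _)
  have e0 : ((0 : ℕ) : ℝ) / (Q : ℝ) = 0 := by simp
  have e1 : ((Q : ℕ) : ℝ) / (Q : ℝ) = 1 := div_self hQ0.ne'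
  simp only [e0, e1] at hsum
  rw [← hsum]
  have hcell : ∀ j ∈ range Q, ∫ ξ in ((j : ℝ) / Q)..(((j + 1 : ℕ) : ℝ) / Q), ‖W 3 N t ξ‖ ^ 12 ≤
      (1 / Q) * (3 ^ 12 * RR 3 N 12 t ((j : ℝ) / Q)) := by
    intro j _
    have hjj : (j : ℝ) / Q ≤ ((j + 1 : ℕ) : ℝ) / Q := by
      apply div_le_div_of_nonneg_right _ hQ0.le
      push_cast
      linarith
    obtain ⟨m, hm, hmax⟩ := Finset.exists_max_image (range (N + 1))
      (fun m => ‖W 3 m t ((j : ℝ) / Q)‖) ⟨0, by simp⟩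
    have hmN : m ≤ N := by
      have := Finset.mem_range.1 hm
      omega
    have hpt : ∀ ξ ∈ Set.Icc ((j : ℝ) / Q) (((j + 1 : ℕ) : ℝ) / Q), ‖W 3 N t ξ‖ ^ 12 ≤
        3 ^ 12 * RR 3 N 12 t ((j : ℝ) / Q) := by
      intro ξ hξ
      have h1 := perturb_xi 3 N t ξ ((j : ℝ) / Q) (‖W 3 m t ((j : ℝ) / Q)‖) (by
        intro m' hm'
        exact hmax m' (Finset.mem_range.2 (by omega))) (1 / 4) (by
        have h2 : |ξ - (j : ℝ) / Q| ≤ 1 / Q := by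
          rw [abs_of_nonneg (by linarith [hξ.1])]
          have h3 := hξ.2
          have h4 : ((j + 1 : ℕ) : ℝ) / Q = (j : ℝ) / Q + 1 / Q := by
            push_cast
            ring
          linarith
        calc |ξ - (j : ℝ) / Q| * (N : ℝ) ≤ 1 / Q * N := mul_le_mul_of_nonneg_right h2 hN0.le
          _ = 1 / 4 := by
              rw [hQ]
              push_cast
              field_simp)
      have hpi : 1 + 2 * Real.pi * (1 / 4) ≤ 3 := by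
        have := Real.pi_lt_four
        linarith
      have h5 : ‖W 3 N t ξ‖ ≤ 3 * ‖W 3 m t ((j : ℝ) / Q)‖ := by
        refine h1.trans ?_
        calc ‖W 3 m t ((j : ℝ) / Q)‖ * (1 + 2 * Real.pi * (1 / 4)) ≤ ‖W 3 m t ((j : ℝ) / Q)‖ * 3 :=
              mul_le_mul_of_nonneg_left hpi (norm_nonneg _)
          _ = _ := mul_comm _ _
      calc ‖W 3 N t ξ‖ ^ 12 ≤ (3 * ‖W 3 m t ((j : ℝ) / Q)‖) ^ 12 :=
            pow_le_pow_left₀ (norm_nonneg _) h5 12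
        _ = 3 ^ 12 * ‖W 3 m t ((j : ℝ) / Q)‖ ^ 12 := mul_pow _ _ _
        _ ≤ _ := mul_le_mul_of_nonneg_left (le_RR 3 N 12 m hN hmN t _) (by norm_num)
    have h2 := intervalIntegral.integral_mono_on hjj (hint _ _)
      (intervalIntegrable_const (c := 3 ^ 12 * RR 3 N 12 t ((j : ℝ) / Q))) hpt
    refine h2.trans (le_of_eq ?_)
    rw [intervalIntegral.integral_const, smul_eq_mul]
    congr 1
    push_cast
    ring
  refine (Finset.sum_le_sum hcell).trans ?_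
  rw [← Finset.mul_sum, ← Finset.mul_sum, sum_RR 3 N 12 hN t]
  have h1 := hC1 N hN t a q hq hqN hcop happ
  have h2 := hC2 N hN
  have h3 : (LL N) ^ 12 * ∑ j ∈ range (4 * N), ‖W 3 N t ((j : ℝ) / ((4 * N : ℕ) : ℝ))‖ ^ 12 ≤
      (C2 * (N : ℝ) ^ (δ / 2)) * (C1 * (N : ℝ) ^ (12 + δ / 2) / (q : ℝ) ^ 3) :=
    mul_le_mul h2 h1 (Finset.sum_nonneg (fun _ _ => by positivity)) (by positivity)
  calc 1 / (Q : ℝ) * (3 ^ 12 * ((LL N) ^ 12 * ∑ j ∈ range (4 * N),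
        ‖W 3 N t ((j : ℝ) / ((4 * N : ℕ) : ℝ))‖ ^ 12))
      ≤ 1 / (Q : ℝ) * (3 ^ 12 * ((C2 * (N : ℝ) ^ (δ / 2)) * (C1 * (N : ℝ) ^ (12 + δ / 2) / (q : ℝ) ^ 3))) := by
        apply mul_le_mul_of_nonneg_left _ (by positivity)
        exact mul_le_mul_of_nonneg_left h3 (by norm_num)
    _ = 3 ^ 12 * (C2 * C1) * (1 / (Q : ℝ) * ((N : ℝ) ^ (δ / 2) * (N : ℝ) ^ (12 + δ / 2))) / (q : ℝ) ^ 3 := by
        ring
    _ ≤ 3 ^ 12 * (C2 * C1) * (N : ℝ) ^ (11 + δ) / (q : ℝ) ^ 3 := by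
        apply div_le_div_of_nonneg_right _ (by positivity)
        apply mul_le_mul_of_nonneg_left _ (by positivity)
        have e : (N : ℝ) ^ (δ / 2) * (N : ℝ) ^ (12 + δ / 2) = N * (N : ℝ) ^ (11 + δ) := by
          rw [← Real.rpow_add hN0]
          have : δ / 2 + (12 + δ / 2) = 1 + (11 + δ) := by ring
          rw [this, Real.rpow_add hN0, Real.rpow_one]
        rw [e, hQ]
        push_cast
        have : 1 / (4 * (N : ℝ)) * (N * (N : ℝ) ^ (11 + δ)) = 1 / 4 * (N : ℝ) ^ (11 + δ) := by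
          field_simp
        rw [this]
        have : (0 : ℝ) ≤ (N : ℝ) ^ (11 + δ) := by positivity
        linarith

end Pool.Agent.Helper20_Mont
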